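import Mathlib

/-!
# Flows and their orbit spaces
-/

set_option autoImplicit false

open Set
open scoped ContDiff

namespace Pool.Agent.Q133.FT

/-- `Φ` is a smooth complete flow on the normed space `E`: a smooth map `ℝ × E → E` which is an
action of the group `ℝ`, i.e. the flow of a complete smooth vector field. -/
structure IsFlow {E : Type} [NormedAddCommGroup E] [NormedSpace ℝ E] (Φ : ℝ → E → E) : Prop where
  smooth : ContDiff ℝ ∞ (fun q : ℝ × E => Φ q.1 q.2)
  zero : ∀ x, Φ 0 x = x
  add : ∀ s t x, Φ (s + t) x = Φ s (Φ t x)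

variable {E : Type} [NormedAddCommGroup E] [NormedSpace ℝ E] {Φ : ℝ → E → E}

/-- two points are equivalent if they lie on the same orbit -/
def orbitSetoid (h : IsFlow Φ) : Setoid E where
  r x y := ∃ t, Φ t x = y
  iseqv := by
    refine ⟨fun x => ⟨0, h.zero x⟩, ?_, ?_⟩
    · rintro x y ⟨t, rfl⟩
      exact ⟨-t, by rw [← h.add, neg_add_cancel, h.zero]⟩
    · rintro x y z ⟨t, rfl⟩ ⟨s, rfl⟩
      exact ⟨s + t, h.add s t x⟩

/-- the orbit space -/
def OrbitSpace (h : IsFlow Φ) : Type := Quotient (orbitSetoid h)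

/-- the orbit space carries the quotient topology -/
instance (h : IsFlow Φ) : TopologicalSpace (OrbitSpace h) :=
  inferInstanceAs (TopologicalSpace (Quotient (orbitSetoid h)))

/-- the quotient map -/
def OrbitSpace.mk (h : IsFlow Φ) (x : E) : OrbitSpace h := Quotient.mk (orbitSetoid h) x

end Pool.Agent.Q133.FT
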