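import Pool.Agent.Q133.FT.Flow2

/-!
# The flows on the full space `ℂ × ℂ × Y`
-/

set_option autoImplicit false
set_option linter.unusedSectionVars false
open Set Topology Complex
open scoped ContDiff ComplexConjugate

namespace Pool.Agent.Q133.FT

noncomputable section

/-! ### a diffeomorphism from the plane to the slit plane -/

/-- `ζ ↦ (e^{Re ζ} + i Im ζ)²` -/
def Mm (z : ℂ) : ℂ := ((Real.exp z.re : ℝ) + (z.im : ℂ) * I) ^ 2
/-- principal square root -/
def sr (z : ℂ) : ℂ := Complex.exp (Complex.log z / 2)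
/-- the inverse of `Mm` -/
def Lm (z : ℂ) : ℂ := (Real.log (sr z).re : ℝ) + ((sr z).im : ℂ) * I

theorem sr_sq {z : ℂ} (hz : z ≠ 0) : sr z ^ 2 = z := by
  unfold sr
  rw [← Complex.exp_nat_mul]
  have : ((2 : ℕ) : ℂ) * (Complex.log z / 2) = Complex.log z := by push_cast; ring
  rw [this, Complex.exp_log hz]

theorem sr_re_pos {z : ℂ} (hz : z ∈ slitPlane) : 0 < (sr z).re := by
  unfold sr
  rw [Complex.exp_re]
  apply mul_pos (Real.exp_pos _)
  have h1 : (Complex.log z / 2).im = z.arg / 2 := by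
    rw [show Complex.log z / 2 = Complex.log z / ((2 : ℝ) : ℂ) by push_cast; rfl,
      Complex.div_ofReal_im, Complex.log_im]
  rw [h1]
  have h2 := Complex.arg_le_pi z
  have h3 := Complex.neg_pi_lt_arg z
  have h4 : z.arg ≠ Real.pi := Complex.slitPlane_arg_ne_pi hz
  apply Real.cos_pos_of_mem_Ioo
  constructor
  · linarith
  · have := lt_of_le_of_ne h2 h4
    linarith

theorem sq_mem {w : ℂ} (hw : 0 < w.re) : w ^ 2 ∈ slitPlane := by
  rw [mem_slitPlane_iff, sq, mul_re, mul_im]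
  by_cases h : w.im = 0
  · left; rw [h]; simp; positivity
  · right
    intro h2
    have : w.re * w.im = 0 := by linarith
    rcases mul_eq_zero.mp this with h3 | h3
    · exact hw.ne' h3
    · exact h h3

theorem sr_unique {w : ℂ} (hw : 0 < w.re) : sr (w ^ 2) = w := by
  have h1 := sr_re_pos (sq_mem hw)
  have h2 : sr (w ^ 2) ^ 2 = w ^ 2 := sr_sq (slitPlane_ne_zero (sq_mem hw))
  rcases sq_eq_sq_iff_eq_or_eq_neg.mp h2 with h | h
  · exact h
  · rw [h] at h1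
    rw [neg_re] at h1
    linarith

theorem Mm_re_pos (z : ℂ) : 0 < ((Real.exp z.re : ℝ) + (z.im : ℂ) * I : ℂ).re := by
  simp only [add_re, ofReal_re, mul_re, I_re, mul_zero, ofReal_im, I_im, mul_one, sub_self,
    add_zero]
  exact Real.exp_pos _

theorem Mm_mem (z : ℂ) : Mm z ∈ slitPlane := sq_mem (Mm_re_pos z)

theorem Lm_Mm (z : ℂ) : Lm (Mm z) = z := by
  unfold Lm Mm
  rw [sr_unique (Mm_re_pos z)]
  apply Complex.ext
  · simp only [ofReal_exp, add_re, mul_re, ofReal_re, ofReal_im, I_re, I_im, mul_zero, mul_one,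
      sub_self, add_zero, zero_mul]
    rw [← ofReal_exp, ofReal_re, Real.log_exp]
  · simp

theorem Mm_Lm {z : ℂ} (hz : z ∈ slitPlane) : Mm (Lm z) = z := by
  have h1 : (Lm z).re = Real.log (sr z).re := by simp [Lm]
  have h2 : (Lm z).im = (sr z).im := by simp [Lm]
  unfold Mm
  rw [h1, h2, Real.exp_log (sr_re_pos hz), re_add_im, sr_sq (slitPlane_ne_zero hz)]

theorem contDiff_Mm : ContDiff ℝ ∞ Mm := by
  unfold Mm
  have h1 : ContDiff ℝ ∞ (fun z : ℂ => (Real.exp z.re : ℂ)) :=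
    Complex.ofRealCLM.contDiff.comp (Real.contDiff_exp.comp Complex.reCLM.contDiff)
  have h2 : ContDiff ℝ ∞ (fun z : ℂ => (z.im : ℂ)) :=
    Complex.ofRealCLM.contDiff.comp Complex.imCLM.contDiff
  exact (h1.add (h2.mul contDiff_const)).pow 2

theorem contDiffAt_Lm {z : ℂ} (hz : z ∈ slitPlane) : ContDiffAt ℝ ∞ Lm z := by
  have h0 : ContDiffAt ℂ ∞ (fun z => Complex.log z / 2) z :=
    (Complex.contDiffAt_log hz).div_const 2
  have h1 : ContDiffAt ℝ ∞ sr z :=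
    (ContDiffAt.comp z Complex.contDiff_exp.contDiffAt h0).restrict_scalars ℝ
  have h2 : ContDiffAt ℝ ∞ (fun z => (sr z).re) z :=
    ContDiffAt.comp (g := fun z : ℂ => z.re) z Complex.reCLM.contDiff.contDiffAt h1
  have h3 : ContDiffAt ℝ ∞ (fun z => (sr z).im) z :=
    ContDiffAt.comp (g := fun z : ℂ => z.im) z Complex.imCLM.contDiff.contDiffAt h1
  have h4 : ContDiffAt ℝ ∞ (fun z => Real.log (sr z).re) z :=
    h2.log (sr_re_pos hz).ne'
  have h5 : ContDiffAt ℝ ∞ (fun z => ((Real.log (sr z).re : ℝ) : ℂ)) z :=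
    ContDiffAt.comp (g := fun x : ℝ => (x : ℂ)) (f := fun z => Real.log (sr z).re) z
      Complex.ofRealCLM.contDiff.contDiffAt h4
  have h6 : ContDiffAt ℝ ∞ (fun z => ((sr z).im : ℂ)) z :=
    ContDiffAt.comp (g := fun x : ℝ => (x : ℂ)) (f := fun z => (sr z).im) z
      Complex.ofRealCLM.contDiff.contDiffAt h3
  exact h5.add (h6.mul contDiffAt_const)

/-! ### the flow on the full space -/

variable {Y : Type*} [NormedAddCommGroup Y] [NormedSpace ℝ Y] (g : ℝ × Y → ℝ)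

/-- the diffeomorphism from the full space to `W g` -/
def Up (p : ℂ × ℂ × Y) : ℂ × ℂ × Y := (p.1, Mm p.2.1 - (tau g p : ℂ), p.2.2)
/-- its inverse -/
def Dn (p : ℂ × ℂ × Y) : ℂ × ℂ × Y := (p.1, Lm (p.2.1 + (tau g p : ℂ)), p.2.2)

theorem Up_mem (p : ℂ × ℂ × Y) : Up g p ∈ W g := by
  change Mm p.2.1 - (tau g p : ℂ) + (tau g p : ℂ) ∈ slitPlane
  rw [sub_add_cancel]
  exact Mm_mem _

theorem Dn_Up (p : ℂ × ℂ × Y) : Dn g (Up g p) = p := by
  refine Prod.ext rfl (Prod.ext ?_ rfl)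
  change Lm (Mm p.2.1 - (tau g p : ℂ) + (tau g p : ℂ)) = p.2.1
  rw [sub_add_cancel, Lm_Mm]

theorem Up_Dn {p : ℂ × ℂ × Y} (hp : p ∈ W g) : Up g (Dn g p) = p := by
  refine Prod.ext rfl (Prod.ext ?_ rfl)
  change Mm (Lm (p.2.1 + (tau g p : ℂ))) - (tau g p : ℂ) = p.2.1
  rw [Mm_Lm hp, add_sub_cancel_right]

variable {g}

theorem contDiff_Up (hg : Good g) : ContDiff ℝ ∞ (Up g) := by
  refine contDiff_fst.prodMk (ContDiff.prodMk ?_ (contDiff_snd.comp contDiff_snd))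
  exact (contDiff_Mm.comp (contDiff_fst.comp contDiff_snd)).sub
    (Complex.ofRealCLM.contDiff.comp (contDiff_tau hg))

theorem contDiffAt_Dn (hg : Good g) {p : ℂ × ℂ × Y} (hp : p ∈ W g) :
    ContDiffAt ℝ ∞ (Dn g) p := by
  refine contDiffAt_fst.prodMk (ContDiffAt.prodMk ?_
    (contDiff_snd.comp contDiff_snd).contDiffAt)
  have h1 : ContDiff ℝ ∞ (fun p : ℂ × ℂ × Y => p.2.1 + (tau g p : ℂ)) :=
    (contDiff_fst.comp contDiff_snd).add (Complex.ofRealCLM.contDiff.comp (contDiff_tau hg))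
  exact ContDiffAt.comp (g := Lm) p (contDiffAt_Lm hp) h1.contDiffAt

variable (g)

/-- the flow on the full space -/
def Th (t : ℝ) (p : ℂ × ℂ × Y) : ℂ × ℂ × Y := Dn g (Phi g t (Up g p))

/-- the quotient map on the full space -/
def qm (p : ℂ × ℂ × Y) : ℂ × ℝ × Y := pr (Up g p)

variable {g}

theorem contDiff_Th (hg : Good g) : ContDiff ℝ ∞ (fun q : ℝ × (ℂ × ℂ × Y) => Th g q.1 q.2) := by
  rw [contDiff_iff_contDiffAt]
  intro q
  have h1 : ContDiffAt ℝ ∞ (fun q : ℝ × (ℂ × ℂ × Y) => ((q.1, Up g q.2) : ℝ × (ℂ × ℂ × Y))) q :=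
    contDiffAt_fst.prodMk ((contDiff_Up hg).comp contDiff_snd).contDiffAt
  have h2 : ContDiffAt ℝ ∞ (fun q : ℝ × (ℂ × ℂ × Y) => Phi g q.1 (Up g q.2)) q :=
    ContDiffAt.comp (g := fun q : ℝ × (ℂ × ℂ × Y) => Phi g q.1 q.2)
      (f := fun q : ℝ × (ℂ × ℂ × Y) => ((q.1, Up g q.2) : ℝ × (ℂ × ℂ × Y))) q
      (contDiffAt_Phi hg (Up_mem g q.2)) h1
  exact ContDiffAt.comp (g := Dn g) (f := fun q : ℝ × (ℂ × ℂ × Y) => Phi g q.1 (Up g q.2)) q
    (contDiffAt_Dn hg (Phi_mem_W hg q.1 (Up_mem g q.2))) h2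

theorem Th_zero (p : ℂ × ℂ × Y) : Th g 0 p = p := by
  unfold Th; rw [Phi_zero, Dn_Up]

theorem Th_add (hg : Good g) (s t : ℝ) (p : ℂ × ℂ × Y) :
    Th g (s + t) p = Th g s (Th g t p) := by
  unfold Th
  rw [Up_Dn g (Phi_mem_W hg t (Up_mem g p)), Phi_add]

theorem qm_eq_iff (hg : Good g) (p q : ℂ × ℂ × Y) : qm g p = qm g q ↔ ∃ t, Th g t p = q := by
  constructor
  · intro h
    obtain ⟨t, ht⟩ := exists_time hg (Up_mem g p) (Up_mem g q) h
    refine ⟨t, ?_⟩
    unfold Th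
    rw [ht, Dn_Up]
  · rintro ⟨t, rfl⟩
    unfold qm Th
    rw [Up_Dn g (Phi_mem_W hg t (Up_mem g p)), pr_Phi]

theorem range_qm (hg : Good g) : range (qm g) = Qs g := by
  ext q
  constructor
  · rintro ⟨p, rfl⟩
    exact pr_mem hg (Up_mem g p)
  · intro hq
    obtain ⟨p, hp, h⟩ := exists_pre hg hq
    refine ⟨Dn g p, ?_⟩
    unfold qm
    rw [Up_Dn g hp, h]

/-! ### the quotient map is open -/

/-- the derivative of `pr` -/
def dpr (p : ℂ × ℂ × Y) : (ℂ × ℂ × Y) →L[ℝ] ℂ × ℝ × Y :=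
  let A : (ℂ × ℂ × Y) →L[ℝ] ℂ := ContinuousLinearMap.fst ℝ ℂ (ℂ × Y)
  let B : (ℂ × ℂ × Y) →L[ℝ] ℂ := (ContinuousLinearMap.fst ℝ ℂ Y).comp
    (ContinuousLinearMap.snd ℝ ℂ (ℂ × Y))
  let Z : (ℂ × ℂ × Y) →L[ℝ] Y := (ContinuousLinearMap.snd ℝ ℂ Y).comp
    (ContinuousLinearMap.snd ℝ ℂ (ℂ × Y))
  let cj : ℂ →L[ℝ] ℂ := (Complex.conjCLE : ℂ →L[ℝ] ℂ)
  (p.1 • (cj.comp B) + (conj p.2.1) • A).prod
    ((Complex.reCLM.comp ((p.1 • (cj.comp A) + (conj p.1) • A) -
      (p.2.1 • (cj.comp B) + (conj p.2.1) • B))).prod Z)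

theorem hasStrictFDerivAt_pr (p : ℂ × ℂ × Y) : HasStrictFDerivAt (pr (Y := Y)) (dpr p) p := by
  have hA : HasStrictFDerivAt (fun p : ℂ × ℂ × Y => p.1)
    (ContinuousLinearMap.fst ℝ ℂ (ℂ × Y)) p := hasStrictFDerivAt_fst
  have hS : HasStrictFDerivAt (fun p : ℂ × ℂ × Y => p.2)
    (ContinuousLinearMap.snd ℝ ℂ (ℂ × Y)) p := hasStrictFDerivAt_snd
  have hB : HasStrictFDerivAt (fun p : ℂ × ℂ × Y => p.2.1)
    ((ContinuousLinearMap.fst ℝ ℂ Y).comp (ContinuousLinearMap.snd ℝ ℂ (ℂ × Y))) p :=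
    HasStrictFDerivAt.comp p hasStrictFDerivAt_fst hS
  have hZ : HasStrictFDerivAt (fun p : ℂ × ℂ × Y => p.2.2)
    ((ContinuousLinearMap.snd ℝ ℂ Y).comp (ContinuousLinearMap.snd ℝ ℂ (ℂ × Y))) p :=
    HasStrictFDerivAt.comp p hasStrictFDerivAt_snd hS
  have hcA : HasStrictFDerivAt (fun p : ℂ × ℂ × Y => conj p.1)
    ((Complex.conjCLE : ℂ →L[ℝ] ℂ).comp (ContinuousLinearMap.fst ℝ ℂ (ℂ × Y))) p :=
    HasStrictFDerivAt.comp p Complex.conjCLE.hasStrictFDerivAt hA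
  have hcB : HasStrictFDerivAt (fun p : ℂ × ℂ × Y => conj p.2.1)
    ((Complex.conjCLE : ℂ →L[ℝ] ℂ).comp ((ContinuousLinearMap.fst ℝ ℂ Y).comp
      (ContinuousLinearMap.snd ℝ ℂ (ℂ × Y)))) p :=
    HasStrictFDerivAt.comp p Complex.conjCLE.hasStrictFDerivAt hB
  have h1 := hA.mul hcB
  have h2 := (hA.mul hcA).sub (hB.mul hcB)
  have h3 : HasStrictFDerivAt (fun p : ℂ × ℂ × Y =>
      (p.1 * conj p.1 - p.2.1 * conj p.2.1).re) _ p :=
    HasStrictFDerivAt.comp p Complex.reCLM.hasStrictFDerivAt h2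
  have h4 := h1.prodMk (h3.prodMk hZ)
  have he : (pr (Y := Y)) = fun p : ℂ × ℂ × Y =>
      (p.1 * conj p.2.1, (p.1 * conj p.1 - p.2.1 * conj p.2.1).re, p.2.2) := by
    funext p
    unfold pr
    rw [mul_conj, mul_conj, sub_re, ofReal_re, ofReal_re]
  rw [he]
  exact h4

theorem dpr_surj {p : ℂ × ℂ × Y} (hp : p.1 ≠ 0 ∨ p.2.1 ≠ 0) : (dpr p).range = ⊤ := by
  rw [LinearMap.range_eq_top]
  rintro ⟨v, s, η⟩
  obtain ⟨a, b, y⟩ := p
  have hN : normSq a + normSq b ≠ 0 := by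
    have h1 := normSq_nonneg a
    have h2 := normSq_nonneg b
    rcases hp with h | h
    · have := normSq_pos.mpr h
      simp only at this
      positivity
    · have := normSq_pos.mpr h
      simp only at this
      positivity
  have key : ∀ α β : ℂ, dpr (a, b, y) (α, β, η) = (a * conj β + conj b * α,
      ((a * conj α + conj a * α) - (b * conj β + conj b * β)).re, η) := by
    intro α β
    rfl
  by_cases hb : b = 0
  · subst hb
    have ha : a ≠ 0 := by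
      rcases hp with h | h
      · exact h
      · exact absurd rfl h
    have hN' : normSq a ≠ 0 := by rwa [Ne, normSq_eq_zero]
    refine ⟨((s / (2 * normSq a) : ℝ) * a, conj (v / a), η), ?_⟩
    change dpr (a, 0, y) (((s / (2 * normSq a) : ℝ) : ℂ) * a, conj (v / a), η) = _
    rw [key]
    refine Prod.ext ?_ (Prod.ext ?_ rfl)
    · change a * conj (conj (v / a)) + conj 0 * _ = v
      rw [conj_conj, map_zero, zero_mul, add_zero]
      field_simp
    · change ((a * conj (((s / (2 * normSq a) : ℝ) : ℂ) * a) +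
        conj a * (((s / (2 * normSq a) : ℝ) : ℂ) * a)) - (0 * _ + conj 0 * _)).re = s
      rw [map_mul, conj_ofReal, map_zero, zero_mul, zero_mul, add_zero, sub_zero]
      have e1 : a * ((((s / (2 * normSq a) : ℝ) : ℂ)) * conj a) +
          conj a * ((((s / (2 * normSq a) : ℝ) : ℂ)) * a) =
          ((2 * (s / (2 * normSq a)) * normSq a : ℝ) : ℂ) := by
        have := mul_conj a
        push_cast
        rw [← this]
        ring
      rw [e1, ofReal_re]
      field_simp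
  · have hcb : conj b ≠ 0 := by rwa [Ne, map_eq_zero]
    set c : ℝ := 2 * (conj a * (v / conj b)).re with hc
    set r : ℝ := (c - s) / (2 * (normSq a + normSq b)) with hr
    refine ⟨(v / conj b - (r : ℂ) * a, (r : ℂ) * b, η), ?_⟩
    change dpr (a, b, y) (v / conj b - (r : ℂ) * a, (r : ℂ) * b, η) = _
    rw [key]
    refine Prod.ext ?_ (Prod.ext ?_ rfl)
    · change a * conj ((r : ℂ) * b) + conj b * (v / conj b - (r : ℂ) * a) = v
      rw [map_mul, conj_ofReal]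
      field_simp
      ring
    · change ((a * conj (v / conj b - (r : ℂ) * a) + conj a * (v / conj b - (r : ℂ) * a)) -
        (b * conj ((r : ℂ) * b) + conj b * ((r : ℂ) * b))).re = s
      have e1 : (a * conj (v / conj b - (r : ℂ) * a) + conj a * (v / conj b - (r : ℂ) * a)) -
        (b * conj ((r : ℂ) * b) + conj b * ((r : ℂ) * b)) =
        (conj (conj a * (v / conj b)) + conj a * (v / conj b)) -
          (2 * r * (normSq a + normSq b) : ℝ) := by
        have h1 := mul_conj a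
        have h2 := mul_conj b
        push_cast
        rw [← h1, ← h2]
        simp only [map_sub, map_mul, conj_ofReal, conj_conj]
        ring
      rw [e1, sub_re, add_re, conj_re, ofReal_re, ← two_mul, ← hc, hr]
      field_simp
      ring

theorem ne_of_W (hg : Good g) {p : ℂ × ℂ × Y} (hp : p ∈ W g) : p.1 ≠ 0 ∨ p.2.1 ≠ 0 := by
  by_contra h
  push Not at h
  have h1 := pr_mem hg hp
  unfold pr Qs at h1
  rw [h.1, h.2] at h1
  simp only [map_zero, mul_zero, sub_self, ne_eq, mem_ofPred_eq, not_true_eq_false,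
    lt_self_iff_false, false_or] at h1
  rw [hg.vanish 0 p.2.2 le_rfl] at h1
  exact lt_irrefl _ h1

theorem isOpenMap_qm [CompleteSpace Y] (hg : Good g) : IsOpenMap (qm g) := by
  intro U hU
  have h1 : IsOpen (W g ∩ Dn g ⁻¹' U) := by
    apply ContinuousOn.isOpen_inter_preimage _ (isOpen_W hg) hU
    intro p hp
    exact (contDiffAt_Dn hg hp).continuousAt.continuousWithinAt
  have h2 : qm g '' U = pr '' (W g ∩ Dn g ⁻¹' U) := by
    ext q
    constructor
    · rintro ⟨p, hp, rfl⟩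
      refine ⟨Up g p, ⟨Up_mem g p, ?_⟩, rfl⟩
      change Dn g (Up g p) ∈ U
      rwa [Dn_Up]
    · rintro ⟨p, ⟨hp, hpU⟩, rfl⟩
      exact ⟨Dn g p, hpU, by unfold qm; rw [Up_Dn g hp]⟩
  rw [h2, isOpen_iff_mem_nhds]
  rintro _ ⟨p, hp, rfl⟩
  rw [← (hasStrictFDerivAt_pr p).map_nhds_eq_of_surj (dpr_surj (ne_of_W hg hp.1))]
  exact Filter.image_mem_map (h1.mem_nhds hp)

theorem contDiff_qm (hg : Good g) : ContDiff ℝ ∞ (qm g) := contDiff_pr.comp (contDiff_Up hg)

end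

end Pool.Agent.Q133.FT
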