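import Pool.Agent.H904R2.Degree
import Pool.Agent.H904R2.MV

/-!
# Singular homology classes of prescribed order, and suspensions
-/

set_option autoImplicit false
set_option linter.unusedSectionVars false

namespace Pool.Agent.Q133.FT

open Finsupp Set
open Pool.Agent.H904R2 (Ch IsCyc IsBdy RAcyc psh fund evm Pc fund_cyc)
open Pool.Agent.H904R2.Sph
open Pool.Agent.Helper922.HB.Sc (Sing sface altd bd sbd sbd_sbd slice rho rho_small rho_id sbd_rho
  smallSet)

noncomputable section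

/-- the (reduced) homology of `X` in degree `k` contains a class of order `d` -/
def HasOrd (X : Type) [TopologicalSpace X] (k d : ℕ) : Prop :=
  ∃ z : Ch X k, IsCyc k z ∧ ∀ m : ℤ, IsBdy k (m • z) ↔ (d : ℤ) ∣ m

variable {X Z : Type} [TopologicalSpace X] [TopologicalSpace Z]

theorem HasOrd.retract {k d : ℕ} (f : C(X, Z)) (r : C(Z, X)) (h : r.comp f = ContinuousMap.id X)
    (hX : HasOrd X k d) : HasOrd Z k d := by
  obtain ⟨z, hz, hm⟩ := hX
  refine ⟨psh f k z, cyc_psh f hz, fun m => ?_⟩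
  rw [← hm]
  constructor
  · intro hb
    have h1 := bdy_psh r hb
    rwa [← map_smul, psh_comp, h, psh_id] at h1
  · intro hb
    have h1 := bdy_psh f hb
    rwa [map_smul] at h1

/-- a two-set Mayer-Vietoris decomposition of a bounding chain which is already small -/
theorem split_bdy (O₁ O₂ : Set X) (h₁ : IsOpen O₁) (h₂ : IsOpen O₂) (hc : ∀ x, x ∈ O₁ ∨ x ∈ O₂)
    {k : ℕ} {c₁ c₂ : Ch X k} (hc₁ : c₁ ∈ sup O₁ k) (hc₂ : c₂ ∈ sup O₂ k)
    (hb : IsBdy k (c₁ + c₂)) :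
    ∃ u₁ ∈ sup O₁ (k + 1), ∃ u₂ ∈ sup O₂ (k + 1), sbd X k u₁ + sbd X k u₂ = c₁ + c₂ := by
  have hopen : ∀ C ∈ ({O₁, O₂} : Set (Set X)), IsOpen C := by
    intro C hC
    simp only [Set.mem_insert_iff, Set.mem_singleton_iff] at hC
    rcases hC with rfl | rfl
    · exact h₁
    · exact h₂
  have hcov : ∀ x : X, ∃ C ∈ ({O₁, O₂} : Set (Set X)), x ∈ C := by
    intro x
    rcases hc x with h | h
    · exact ⟨O₁, by simp, h⟩
    · exact ⟨O₂, by simp, h⟩
  obtain ⟨u, hu⟩ := hb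
  have hsm : c₁ + c₂ ∈ Finsupp.supported ℤ ℤ (smallSet ({O₁, O₂} : Set (Set X)) k) := by
    apply Submodule.add_mem
    · have h : {σ : Sing X k | Set.range σ ⊆ O₁} ⊆ smallSet ({O₁, O₂} : Set (Set X)) k :=
        fun σ hσ => ⟨O₁, by simp, hσ⟩
      exact Finsupp.supported_mono h hc₁
    · have h : {σ : Sing X k | Set.range σ ⊆ O₂} ⊆ smallSet ({O₁, O₂} : Set (Set X)) k :=
        fun σ hσ => ⟨O₂, by simp, hσ⟩
      exact Finsupp.supported_mono h hc₂
  have h1 : sbd X k (rho {O₁, O₂} (k + 1) u) = c₁ + c₂ := by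
    rw [sbd_rho, hu, rho_id _ _ _ hsm]
  have h2 := rho_small {O₁, O₂} hopen hcov (k + 1) u
  refine ⟨res O₁ (k + 1) (rho {O₁, O₂} (k + 1) u), res_mem _ _, _, sub_res_mem O₁ O₂ h2, ?_⟩
  rw [← map_add, add_sub_cancel, h1]

section susp

variable {E : Type} [NormedAddCommGroup E] [NormedSpace ℝ E]

/-- the open suspension of a subset of a vector space -/
def Su (V : Set E) : Set (ℝ × E) := {p | p.1 ≠ 0 ∨ p.2 ∈ V}

theorem isOpen_Su {V : Set E} (hV : IsOpen V) : IsOpen (Su V) :=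
  (isOpen_ne.preimage continuous_fst).union (hV.preimage continuous_snd)

/-- upper part (`s = 1`) and lower part (`s = -1`) -/
def Pt (V : Set E) (s : ℝ) : Set (Su V) := {x | 0 < s * x.1.1 ∨ x.1.2 ∈ V}

theorem isOpen_Pt {V : Set E} (hV : IsOpen V) (s : ℝ) : IsOpen (Pt V s) := by
  have h1 : IsOpen {x : Su V | 0 < s * x.1.1} :=
    isOpen_lt continuous_const (continuous_const.mul (continuous_fst.comp continuous_subtype_val))
  have h2 : IsOpen {x : Su V | x.1.2 ∈ V} :=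
    hV.preimage (continuous_snd.comp continuous_subtype_val)
  exact h1.union h2

theorem Pt_cover (V : Set E) (x : Su V) : x ∈ Pt V 1 ∨ x ∈ Pt V (-1) := by
  rcases x.2 with h | h
  · rcases lt_or_gt_of_ne h with h | h
    · right; left; linarith
    · left; left; linarith
  · left; right; exact h

theorem Pt_inter {V : Set E} {x : Su V} (h1 : x ∈ Pt V 1) (h2 : x ∈ Pt V (-1)) : x.1.2 ∈ V := by
  rcases h1 with h1 | h1
  · rcases h2 with h2 | h2
    · exfalso; linarith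
    · exact h2
  · exact h1

theorem vec_acyc (m : ℕ) : RAcyc E m := by
  refine contr_acyc (X := E) ⟨fun p => (1 - (p.2 : ℝ)) • p.1, by fun_prop⟩ 0 ?_ ?_ m
  · ext x
    change (1 - ((0 : unitInterval) : ℝ)) • x = x
    simp
  · ext x
    change (1 - ((1 : unitInterval) : ℝ)) • x = 0
    simp

theorem Pt_mem {V : Set E} {s : ℝ} (hs : s * s = 1) {t : unitInterval} {x : ℝ × E}
    (hx : 0 < s * x.1 ∨ x.2 ∈ V) :
    0 < s * ((1 - (t : ℝ)) * s + t * x.1) ∨ x.2 ∈ V := by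
  rcases hx with h | h
  · left
    have h0 := t.2.1
    have h1 := t.2.2
    have e : s * ((1 - (t : ℝ)) * s + t * x.1) = (1 - t) * (s * s) + t * (s * x.1) := by ring
    rw [e, hs]
    rcases h0.eq_or_lt with h0 | h0
    · rw [← h0]; norm_num
    · have : 0 < (t : ℝ) * (s * x.1) := mul_pos h0 h
      linarith
  · right; exact h

theorem ne_of_pos {s t : ℝ} (h : 0 < s * t) : t ≠ 0 := by
  rintro rfl
  simp at h

theorem Pt_acyc (V : Set E) (s : ℝ) (hs : s * s = 1) (m : ℕ) : RAcyc (Pt V s) m := by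
  have hmem : ∀ (t : unitInterval) (x : Pt V s),
      (((1 - (t : ℝ)) * s + t * x.1.1.1, x.1.1.2) : ℝ × E) ∈ Su V := by
    intro t x
    rcases Pt_mem hs (t := t) x.2 with h | h
    · left; exact ne_of_pos h
    · right; exact h
  let H : C(Pt V s × unitInterval, Pt V s) :=
    ⟨fun p => ⟨⟨((1 - (p.2 : ℝ)) * s + p.2 * p.1.1.1.1, p.1.1.1.2), hmem p.2 p.1⟩,
      Pt_mem hs (t := p.2) p.1.2⟩, by
      refine Continuous.subtype_mk (Continuous.subtype_mk ?_ _) _
      fun_prop⟩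
  have hs0 : 0 < s * s := by rw [hs]; norm_num
  let f : C(Pt V s, E) := ⟨fun x => x.1.1.2, by fun_prop⟩
  let r : C(E, Pt V s) := ⟨fun ξ => ⟨⟨(s, ξ), Or.inl (ne_of_pos hs0)⟩, Or.inl hs0⟩, by
    refine Continuous.subtype_mk (Continuous.subtype_mk ?_ _) _
    fun_prop⟩
  refine Pool.Agent.H904R2.MV.racyc_of_htpy f r H ?_ ?_ m (vec_acyc m)
  · ext x
    · change (1 - ((0 : unitInterval) : ℝ)) * s + ((0 : unitInterval) : ℝ) * x.1.1.1 = s
      simp
    · rfl
  · ext x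
    · change (1 - ((1 : unitInterval) : ℝ)) * s + ((1 : unitInterval) : ℝ) * x.1.1.1 = x.1.1.1
      simp
    · rfl

theorem HasOrd.susp {V : Set E} (hV : IsOpen V) {k d : ℕ} (h : HasOrd V k d) :
    HasOrd (Su V) (k + 1) d := by
  obtain ⟨z, hz, hm⟩ := h
  let O₁ : Set (Su V) := Pt V 1
  let O₂ : Set (Su V) := Pt V (-1)
  have a1 : ∀ m, RAcyc O₁ m := Pt_acyc V 1 (by norm_num)
  have a2 : ∀ m, RAcyc O₂ m := Pt_acyc V (-1) (by norm_num)
  -- inclusion of `V` at height zero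
  let i' : C(V, (O₁ ∩ O₂ : Set (Su V))) :=
    ⟨fun ξ => ⟨⟨(0, ξ.1), Or.inr ξ.2⟩, Or.inr ξ.2, Or.inr ξ.2⟩, by
      refine Continuous.subtype_mk (Continuous.subtype_mk ?_ _) _
      fun_prop⟩
  let q : C((O₁ ∩ O₂ : Set (Su V)), V) := ⟨fun x => ⟨x.1.1.2, Pt_inter x.2.1 x.2.2⟩, by
    refine Continuous.subtype_mk ?_ _
    fun_prop⟩
  have hqi : q.comp i' = ContinuousMap.id V := by
    ext x; rfl
  let i : C(V, Su V) := (inc (O₁ ∩ O₂)).comp i'
  have hi : ∀ (m : ℕ) (w : Ch V m), psh i m w ∈ sup (O₁ ∩ O₂) m := by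
    intro m w
    rw [← psh_comp]
    exact psh_inc_mem _ _
  have hcc := hi k z
  have hcyc : IsCyc k (psh i k z) := cyc_psh i hz
  obtain ⟨y1, hy1, hb1⟩ := acyc_in (a1 k) (sup_mono inter_subset_left _ hcc) hcyc
  obtain ⟨y2, hy2, hb2⟩ := acyc_in (a2 k) (sup_mono inter_subset_right _ hcc) hcyc
  refine ⟨y1 - y2, ?_, fun m => ?_⟩
  · change sbd _ k (y1 - y2) = 0
    rw [map_sub, hb1, hb2, sub_self]
  · rw [← hm]
    have e : m • (y1 - y2) = m • y1 + (-(m • y2)) := by rw [smul_sub, sub_eq_add_neg]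
    rw [e]
    constructor
    · intro hb
      obtain ⟨u1, hu1, u2, hu2, hu⟩ := split_bdy O₁ O₂ (isOpen_Pt hV 1) (isOpen_Pt hV (-1))
        (Pt_cover V) (Submodule.smul_mem _ m hy1)
        (Submodule.neg_mem _ (Submodule.smul_mem _ m hy2)) hb
      have h1 : m • y1 - sbd _ (k + 1) u1 = m • y2 + sbd _ (k + 1) u2 := by
        rw [sub_eq_iff_eq_add, add_assoc, add_comm (sbd _ (k + 1) u2), hu]
        abel
      have h2 : m • y1 - sbd _ (k + 1) u1 ∈ sup (O₁ ∩ O₂) (k + 1) := by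
        apply sup_inter
        · exact Submodule.sub_mem _ (Submodule.smul_mem _ m hy1) (sbd_mem_sup hu1)
        · rw [h1]
          exact Submodule.add_mem _ (Submodule.smul_mem _ m hy2) (sbd_mem_sup hu2)
      obtain ⟨e', he'⟩ := exists_lift h2
      refine ⟨psh q (k + 1) e', ?_⟩
      rw [sbd_psh]
      have h3 : sbd _ k e' = m • psh i' k z := by
        apply psh_injective _ (inc_injective (O₁ ∩ O₂))
        rw [← sbd_psh, he', map_sub, map_smul, hb1, sbd_sbd, sub_zero, map_smul, psh_comp]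
      rw [h3, map_smul, psh_comp, hqi, psh_id]
    · rintro ⟨w, hw⟩
      refine mv_glue O₁ O₂ (a1 _) (a2 _) (Submodule.smul_mem _ m hy1)
        (Submodule.neg_mem _ (Submodule.smul_mem _ m hy2)) ?_ (hi (k + 1) w) ?_
      · rw [map_add, map_neg, map_smul, map_smul, hb1, hb2, add_neg_cancel]
      · rw [map_smul, hb1, sbd_psh, hw, map_smul]

end susp

/-! ### a space with a class of order `d` in degree one -/

section Zd

open Pool.Agent.H904R2.Deg

/-- the open set `{|w| > 1/2 or |w - u^d| < 1/4}` in the complex plane of dimension two -/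
def Zd (d : ℕ) : Set (ℂ × ℂ) := {p | 1 / 2 < ‖p.2‖ ∨ ‖p.2 - p.1 ^ d‖ < 1 / 4}

theorem isOpen_Zd (d : ℕ) : IsOpen (Zd d) := by
  have h1 : IsOpen {p : ℂ × ℂ | 1 / 2 < ‖p.2‖} := isOpen_lt continuous_const (by fun_prop)
  have h2 : IsOpen {p : ℂ × ℂ | ‖p.2 - p.1 ^ d‖ < 1 / 4} :=
    isOpen_lt (by fun_prop) continuous_const
  exact h1.union h2

/-- first part -/
def P1 (d : ℕ) : Set (Zd d) := {x | 1 / 2 < ‖x.1.2‖}
/-- second part -/
def P2 (d : ℕ) : Set (Zd d) := {x | ‖x.1.2 - x.1.1 ^ d‖ < 1 / 4}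

theorem isOpen_P1 (d : ℕ) : IsOpen (P1 d) := isOpen_lt continuous_const (by fun_prop)
theorem isOpen_P2 (d : ℕ) : IsOpen (P2 d) := isOpen_lt (by fun_prop) continuous_const

/-- normalisation -/
def nz (v : Pc 2) : ℂ := c2 v.1 / (‖c2 v.1‖ : ℂ)

theorem norm_nz (v : Pc 2) : ‖nz v‖ = 1 := by
  unfold nz
  rw [norm_div, Complex.norm_real, norm_norm, div_self]
  rw [norm_ne_zero_iff]
  exact c2_ne_zero v

theorem continuous_nz : Continuous nz := by
  have h1 : Continuous (fun v : Pc 2 => c2 v.1) := (continuous_c2 0).comp continuous_subtype_val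
  refine h1.div (Complex.continuous_ofReal.comp h1.norm) ?_
  intro v
  simpa using c2_ne_zero v

/-- the nonzero complex number as an element of `Pc 2` -/
def mkP (z : ℂ) (hz : z ≠ 0) : Pc 2 := ⟨put (N := 0) z 0, by
  intro h
  apply hz
  rw [← c2_put (N := 0) z 0, h]
  simp [c2]⟩

theorem c2_mkP (z : ℂ) (hz : z ≠ 0) : c2 (mkP z hz).1 = z := c2_put _ _

theorem continuous_mkP {T : Type} [TopologicalSpace T] (f : T → ℂ) (hf : Continuous f)
    (h0 : ∀ t, f t ≠ 0) : Continuous (fun t => mkP (f t) (h0 t)) := by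
  refine Continuous.subtype_mk ?_ _
  exact (continuous_put 0).comp (hf.prodMk continuous_const)

theorem nz_ne (v : Pc 2) : nz v ≠ 0 := by
  intro h
  have := norm_nz v
  rw [h, norm_zero] at this
  norm_num at this

/-- normalisation as a self-map of the punctured plane -/
def Nz : C(Pc 2, Pc 2) := ⟨fun v => mkP (nz v) (nz_ne v), continuous_mkP _ continuous_nz nz_ne⟩

theorem slice_apply {A B : Type} [TopologicalSpace A] [TopologicalSpace B]
    (H : C(A × unitInterval, B)) (t : unitInterval) (a : A) : slice H t a = H (a, t) := rfl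

theorem Nz_bdy : IsBdy 1 (psh Nz 1 (fund 1) - fund 1) := by
  have hp : ∀ (v : Pc 2) (t : unitInterval),
      c2 v.1 * (((1 - (t : ℝ)) + t / ‖c2 v.1‖ : ℝ) : ℂ) ≠ 0 := by
    intro v t
    have h0 := c2_ne_zero v
    have h1 : 0 < ‖c2 v.1‖ := norm_pos_iff.mpr h0
    have h2 : 0 < (1 - (t : ℝ)) + t / ‖c2 v.1‖ := by
      rcases t.2.1.eq_or_lt with h | h
      · rw [← h]; norm_num
      · have h3 := t.2.2
        have : 0 < (t : ℝ) / ‖c2 v.1‖ := div_pos h h1
        linarith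
    exact mul_ne_zero h0 (by exact_mod_cast h2.ne')
  have hc : Continuous (fun p : Pc 2 × unitInterval =>
      c2 p.1.1 * (((1 - (p.2 : ℝ)) + p.2 / ‖c2 p.1.1‖ : ℝ) : ℂ)) := by
    have h1 : Continuous (fun p : Pc 2 × unitInterval => c2 p.1.1) :=
      (continuous_c2 0).comp (continuous_subtype_val.comp continuous_fst)
    have h2 : Continuous (fun p : Pc 2 × unitInterval => (p.2 : ℝ)) :=
      continuous_subtype_val.comp continuous_snd
    refine h1.mul (Complex.continuous_ofReal.comp ?_)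
    refine (continuous_const.sub h2).add (h2.div h1.norm ?_)
    intro p
    exact norm_ne_zero_iff.mpr (c2_ne_zero p.1)
  let H : C(Pc 2 × unitInterval, Pc 2) :=
    ⟨fun p => mkP (c2 p.1.1 * (((1 - (p.2 : ℝ)) + p.2 / ‖c2 p.1.1‖ : ℝ) : ℂ)) (hp p.1 p.2),
      continuous_mkP _ hc _⟩
  have h := homotopy_bdy H (fund_cyc 1)
  have e1 : slice H 1 = Nz := by
    apply ContinuousMap.ext
    intro v
    apply pc2_ext
    change c2 (mkP (c2 v.1 * (((1 - ((1 : unitInterval) : ℝ)) +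
      ((1 : unitInterval) : ℝ) / ‖c2 v.1‖ : ℝ) : ℂ)) (hp v 1)).1 = c2 (mkP (nz v) (nz_ne v)).1
    rw [c2_mkP, c2_mkP, nz]
    simp [div_eq_mul_inv]
  have e0 : slice H 0 = ContinuousMap.id _ := by
    apply ContinuousMap.ext
    intro v
    apply pc2_ext
    change c2 (mkP (c2 v.1 * (((1 - ((0 : unitInterval) : ℝ)) +
      ((0 : unitInterval) : ℝ) / ‖c2 v.1‖ : ℝ) : ℂ)) (hp v 0)).1 = c2 v.1
    rw [c2_mkP]
    simp
  rw [e1, e0, psh_id] at h
  exact h

theorem nz_pf (d : ℕ) (hd : 0 < d) (v : Pc 2) : nz (pf 0 d hd v) = nz v ^ d := by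
  unfold nz
  have h : c2 (pf 0 d hd v).1 = c2 v.1 ^ d := c2_put _ _
  rw [h, norm_pow, div_pow, Complex.ofReal_pow]

/-- the loop `w ∈ S¹, u = 0` -/
def jj (d : ℕ) : C(Pc 2, Zd d) := ⟨fun v => ⟨(0, nz v), Or.inl (by
  rw [norm_nz]; norm_num)⟩, by
  refine Continuous.subtype_mk ?_ _
  exact continuous_const.prodMk continuous_nz⟩

theorem jj_bdy (d : ℕ) (hd : 0 < d) : IsBdy 1 ((d : ℤ) • psh (jj d) 1 (fund 1)) := by
  have h1 : IsBdy 1 (psh (pf 0 d hd) 1 (fund 1) - (d : ℤ) • fund 1) := pf_zero_deg d hd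
  have h2 := bdy_psh (jj d) h1
  rw [map_sub, map_smul, psh_comp] at h2
  let H : C(Pc 2 × unitInterval, Zd d) :=
    ⟨fun p => ⟨(((p.2 : ℝ) : ℂ) * nz p.1, nz p.1 ^ d), Or.inl (by
      change 1 / 2 < ‖nz p.1 ^ d‖
      rw [norm_pow, norm_nz, one_pow]; norm_num)⟩, by
      refine Continuous.subtype_mk ?_ _
      have hn : Continuous (fun p : Pc 2 × unitInterval => nz p.1) :=
        continuous_nz.comp continuous_fst
      have ht : Continuous (fun p : Pc 2 × unitInterval => ((p.2 : ℝ) : ℂ)) :=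
        Complex.continuous_ofReal.comp (continuous_subtype_val.comp continuous_snd)
      exact (ht.mul hn).prodMk (hn.pow d)⟩
  have h3 := homotopy_bdy H (fund_cyc 1)
  have e0 : slice H 0 = (jj d).comp (pf 0 d hd) := by
    apply ContinuousMap.ext
    intro v
    apply Subtype.ext
    change ((((0 : unitInterval) : ℝ) : ℂ) * nz v, nz v ^ d) = (0, nz (pf 0 d hd v))
    rw [nz_pf]
    simp
  let κ : C(ℂ, Zd d) := ⟨fun u => ⟨(u, u ^ d), Or.inr (by
    change ‖u ^ d - u ^ d‖ < 1 / 4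
    rw [sub_self, norm_zero]; norm_num)⟩, by
    refine Continuous.subtype_mk ?_ _
    fun_prop⟩
  let nzc : C(Pc 2, ℂ) := ⟨nz, continuous_nz⟩
  have e1 : slice H 1 = κ.comp nzc := by
    apply ContinuousMap.ext
    intro v
    apply Subtype.ext
    change ((((1 : unitInterval) : ℝ) : ℂ) * nz v, nz v ^ d) = (nz v, nz v ^ d)
    simp
  have h4 : IsBdy 1 (psh (κ.comp nzc) 1 (fund 1)) := by
    rw [← psh_comp]
    exact bdy_psh κ (vec_acyc (E := ℂ) 1 _ (cyc_psh nzc (fund_cyc 1)))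
  rw [e0, e1] at h3
  have e : (d : ℤ) • psh (jj d) 1 (fund 1) = psh (κ.comp nzc) 1 (fund 1) -
      (psh (κ.comp nzc) 1 (fund 1) - psh ((jj d).comp (pf 0 d hd)) 1 (fund 1)) -
      (psh ((jj d).comp (pf 0 d hd)) 1 (fund 1) - (d : ℤ) • psh (jj d) 1 (fund 1)) := by abel
  rw [e]
  exact bdy_sub (bdy_sub h4 h3) h2

/-- the coordinate `w` on the first part -/
def w1 (d : ℕ) : C(P1 d, Pc 2) := ⟨fun x => mkP x.1.1.2 (by
  intro h
  have h1 : 1 / 2 < ‖x.1.1.2‖ := x.2
  rw [h, norm_zero] at h1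
  norm_num at h1), continuous_mkP _ (by fun_prop) _⟩

theorem root_aux {d : ℕ} {u w : ℂ} (h1 : 1 / 2 < ‖w‖) (h2 : ‖w - u ^ d‖ < 1 / 4) :
    u ^ d ≠ 0 ∧ w / u ^ d ∈ Complex.slitPlane := by
  have h3 : 1 / 4 < ‖u ^ d‖ := by
    have := norm_sub_norm_le w (w - u ^ d)
    rw [sub_sub_cancel] at this
    linarith
  have h4 : u ^ d ≠ 0 := by
    intro h
    rw [h, norm_zero] at h3
    norm_num at h3
  refine ⟨h4, ?_⟩
  apply Complex.mem_slitPlane_of_norm_lt_one (z := w / u ^ d - 1) |> fun h => by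
    have h5 := h ?_
    · rwa [add_sub_cancel] at h5
    · have e : w / u ^ d - 1 = (w - u ^ d) / u ^ d := by field_simp
      rw [e, norm_div, div_lt_one (by linarith)]
      linarith

/-- a `d`-th root of `w` -/
def rt (d : ℕ) (u w : ℂ) : ℂ := u * Complex.exp (Complex.log (w / u ^ d) / d)

theorem rt_pow {d : ℕ} (hd : 0 < d) {u w : ℂ} (h1 : 1 / 2 < ‖w‖) (h2 : ‖w - u ^ d‖ < 1 / 4) :
    rt d u w ^ d = w := by
  obtain ⟨h3, h4⟩ := root_aux h1 h2
  unfold rt
  rw [mul_pow, ← Complex.exp_nat_mul]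
  have hd' : (d : ℂ) ≠ 0 := by exact_mod_cast hd.ne'
  have e : (d : ℂ) * (Complex.log (w / u ^ d) / d) = Complex.log (w / u ^ d) := by field_simp
  rw [e, Complex.exp_log (Complex.slitPlane_ne_zero h4)]
  field_simp

theorem rt_ne {d : ℕ} (hd : 0 < d) {u w : ℂ} (h1 : 1 / 2 < ‖w‖) (h2 : ‖w - u ^ d‖ < 1 / 4) :
    rt d u w ≠ 0 := by
  intro h
  have h3 := rt_pow hd h1 h2
  rw [h, zero_pow hd.ne'] at h3
  rw [← h3, norm_zero] at h1
  norm_num at h1

theorem ordZd (d : ℕ) (hd : 0 < d) : HasOrd (Zd d) 1 d := by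
  refine ⟨psh (jj d) 1 (fund 1), cyc_psh _ (fund_cyc 1), fun m => ⟨?_, ?_⟩⟩
  · intro hb
    have hcov : ∀ x : Zd d, x ∈ P1 d ∨ x ∈ P2 d := fun x => x.2
    -- the loop as a map to the first part
    have hjP : ∀ v, jj d v ∈ P1 d := by
      intro v
      change 1 / 2 < ‖nz v‖
      rw [norm_nz]; norm_num
    let j' : C(Pc 2, P1 d) := ⟨fun v => ⟨jj d v, hjP v⟩, (jj d).continuous.subtype_mk hjP⟩
    have hj : (inc (P1 d)).comp j' = jj d := rfl
    have hγ : psh (jj d) 1 (fund 1) ∈ sup (P1 d) 1 := by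
      rw [← hj, ← psh_comp]; exact psh_inc_mem _ _
    obtain ⟨u1, hu1, u2, hu2, hu⟩ := split_bdy (P1 d) (P2 d) (isOpen_P1 d) (isOpen_P2 d) hcov
      (Submodule.smul_mem _ m hγ) (Submodule.zero_mem (sup (P2 d) 1)) (by rwa [add_zero])
    rw [add_zero] at hu
    have h1 : sbd _ 1 u2 ∈ sup (P1 d ∩ P2 d) 1 := by
      apply sup_inter
      · have : sbd _ 1 u2 = m • psh (jj d) 1 (fund 1) - sbd _ 1 u1 := by
          rw [← hu]; abel
        rw [this]
        exact Submodule.sub_mem _ (Submodule.smul_mem _ m hγ) (sbd_mem_sup hu1)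
      · exact sbd_mem_sup hu2
    obtain ⟨δ, hδ⟩ := exists_lift h1
    obtain ⟨u1', hu1'⟩ := exists_lift hu1
    have hδc : IsCyc 1 δ := isCyc_of_psh _ (inc_injective _) (by rw [hδ]; exact isCyc_sbd u2)
    let il : C((P1 d ∩ P2 d : Set (Zd d)), P1 d) :=
      ⟨fun x => ⟨x.1, x.2.1⟩, continuous_subtype_val.subtype_mk fun x => x.2.1⟩
    have hmain : m • psh j' 1 (fund 1) = sbd _ 1 u1' + psh il 1 δ := by
      apply psh_injective _ (inc_injective (P1 d))
      rw [map_smul, psh_comp, hj, map_add, psh_comp, ← sbd_psh, hu1', ← hu]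
      congr 1
      exact hδ.symm
    obtain ⟨ω, hω, hω1⟩ := Pool.Agent.H904R2.pc_coc 1
    have hW := congrArg (fun c => evm ω (psh (w1 d) 1 c)) hmain
    simp only [map_smul, map_add] at hW
    rw [psh_comp, psh_comp, ← sbd_psh, evm_sbd hω, zero_add] at hW
    have e1 : (w1 d).comp j' = Nz := by
      apply ContinuousMap.ext
      intro v
      apply pc2_ext
      change c2 (mkP (nz v) (nz_ne v)).1 = c2 (mkP (nz v) (nz_ne v)).1
      rfl
    have e2 : evm ω (psh Nz 1 (fund 1)) = 1 := by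
      have := evm_bdy hω Nz_bdy
      rw [map_sub, hω1, sub_eq_zero] at this
      exact this
    rw [e1, e2, smul_eq_mul, mul_one] at hW
    -- the `d`-th root on the intersection
    let v : C((P1 d ∩ P2 d : Set (Zd d)), Pc 2) :=
      ⟨fun x => mkP (rt d x.1.1.1 x.1.1.2) (rt_ne hd x.2.1 x.2.2), by
        refine continuous_mkP _ ?_ _
        unfold rt
        have hu : Continuous (fun x : (P1 d ∩ P2 d : Set (Zd d)) => x.1.1.1) := by fun_prop
        have hw : Continuous (fun x : (P1 d ∩ P2 d : Set (Zd d)) => x.1.1.2) := by fun_prop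
        refine hu.mul (Complex.continuous_exp.comp (Continuous.div_const ?_ _))
        refine Continuous.clog (hw.div (hu.pow d) fun x => (root_aux x.2.1 x.2.2).1) ?_
        intro x
        exact (root_aux x.2.1 x.2.2).2⟩
    have e3 : (w1 d).comp il = (pf 0 d hd).comp v := by
      apply ContinuousMap.ext
      intro x
      apply pc2_ext
      have h : c2 (pf 0 d hd (v x)).1 = c2 (v x).1 ^ d := c2_put _ _
      have h' : c2 (w1 d (il x)).1 = x.1.1.2 := c2_put _ _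
      have h'' : c2 (v x).1 = rt d x.1.1.1 x.1.1.2 := c2_put _ _
      change c2 (w1 d (il x)).1 = c2 (pf 0 d hd (v x)).1
      rw [h, h', h'', rt_pow hd x.2.1 x.2.2]
    obtain ⟨a, ha⟩ := Pool.Agent.H904R2.pc_gen 1 (psh v 1 δ) (cyc_psh v hδc)
    have h4 := evm_bdy hω (bdy_psh (pf 0 d hd) ha)
    have h5 : evm ω (psh (pf 0 d hd) 1 (fund 1)) = d := by
      have h6 : IsBdy 1 (psh (pf 0 d hd) 1 (fund 1) - (d : ℤ) • fund 1) := pf_zero_deg d hd
      have := evm_bdy hω h6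
      rw [map_sub, map_smul, hω1, sub_eq_zero, smul_eq_mul, mul_one] at this
      exact this
    rw [map_sub, map_smul, map_sub, map_smul, h5, psh_comp, ← e3, ← hW, sub_eq_zero] at h4
    refine ⟨a, ?_⟩
    rw [h4, smul_eq_mul, mul_comm]
  · rintro ⟨a, rfl⟩
    rw [mul_comm, mul_smul]
    exact bdy_smul (jj_bdy d hd) a

end Zd

end

end Pool.Agent.Q133.FT
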