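import Pool.Agent.Q133.FT.Defs
import Pool.Agent.Q133.FT.Flow3
import Pool.Agent.Q133.FT.Hom
import Pool.Agent.TH650.Emb.Bridge

/-!
# Assembling the flows with torsion in the homology of the orbit space
-/

set_option autoImplicit false
set_option linter.unusedSectionVars false

open Set Topology CategoryTheory AlgebraicTopology
open scoped ContDiff

namespace Pool.Agent.Q133.FT

open Pool.Agent.H904R2 (Ch IsCyc IsBdy RAcyc psh)

noncomputable section

/-! ### bridge to Mathlib's singular homology -/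

open Pool.Agent.TH650.Emb (HZ) in
theorem exists_addOrderOf {X : Type} [TopologicalSpace X] {k d : ℕ} (hk : 1 ≤ k)
    (h : HasOrd X k d) : ∃ x : HZ k X, addOrderOf x = d := by
  obtain ⟨z, hz, hm⟩ := h
  obtain ⟨e⟩ := Pool.Agent.TH592.Nag.bridge ℤ X k
  let z' : Pool.Agent.TH592.Nag.cyc ℤ X k :=
    ⟨z, (Pool.Agent.TH650.Emb.BrAux.mem_cyc hk z).2 hz⟩
  let c : Pool.Agent.TH592.Nag.Hm ℤ X k := Submodule.Quotient.mk z'
  have key : ∀ n : ℕ, n • c = 0 ↔ d ∣ n := by
    intro n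
    have h1 : n • c = Submodule.Quotient.mk ((n : ℤ) • z') := by
      rw [Submodule.Quotient.mk_smul, natCast_zsmul]
    rw [h1, Submodule.Quotient.mk_eq_zero, ← Int.natCast_dvd_natCast, ← hm]
    exact Pool.Agent.TH650.Emb.BrAux.mem_bou ((n : ℤ) • z)
  refine ⟨e.symm c, ?_⟩
  apply Nat.dvd_antisymm
  · rw [addOrderOf_dvd_iff_nsmul_eq_zero, ← map_nsmul, (key d).2 dvd_rfl, map_zero]
  · rw [← key]
    apply e.symm.injective
    rw [map_nsmul, map_zero]
    exact addOrderOf_nsmul_eq_zero _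

/-! ### open sets with a class of order `d` -/

theorem exists_Z0 (k d : ℕ) (hd : 0 < d) :
    ∃ (Ξ : Type) (_ : NormedAddCommGroup Ξ) (_ : NormedSpace ℝ Ξ) (_ : FiniteDimensional ℝ Ξ)
      (Z : Set Ξ), Module.finrank ℝ Ξ = k + 4 ∧ IsOpen Z ∧ Z.Nonempty ∧ HasOrd Z (k + 1) d := by
  induction k with
  | zero =>
    refine ⟨ℂ × ℂ, inferInstance, inferInstance, inferInstance, Zd d, ?_, isOpen_Zd d,
      ⟨(0, 1), ?_⟩, ordZd d hd⟩
    · rw [Module.finrank_prod, Complex.finrank_real_complex]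
    · left
      norm_num
  | succ k ih =>
    obtain ⟨Ξ, i1, i2, i3, Z, h1, h2, ⟨x, hx⟩, h4⟩ := ih
    refine ⟨ℝ × Ξ, inferInstance, inferInstance, inferInstance, Su Z, ?_, isOpen_Su h2,
      ⟨(0, x), Or.inr hx⟩, h4.susp h2⟩
    rw [Module.finrank_prod, h1, Module.finrank_self]
    ring

theorem exists_Z (k d N : ℕ) (hk : 1 ≤ k) (hd : 0 < d) (hN : k + 3 ≤ N) :
    ∃ (Ξ : Type) (_ : NormedAddCommGroup Ξ) (_ : NormedSpace ℝ Ξ) (_ : FiniteDimensional ℝ Ξ)
      (Z : Set Ξ), Module.finrank ℝ Ξ = N ∧ IsOpen Z ∧ Z.Nonempty ∧ HasOrd Z k d := by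
  obtain ⟨k, rfl⟩ : ∃ j, k = j + 1 := ⟨k - 1, by omega⟩
  obtain ⟨j, rfl⟩ : ∃ j, N = k + 4 + j := ⟨N - (k + 4), by omega⟩
  obtain ⟨Ξ, i1, i2, i3, Z, h1, h2, ⟨x, hx⟩, h4⟩ := exists_Z0 k d hd
  refine ⟨Ξ × (Fin j → ℝ), inferInstance, inferInstance, inferInstance, Prod.fst ⁻¹' Z, ?_,
    h2.preimage continuous_fst, ⟨(x, 0), hx⟩, ?_⟩
  · rw [Module.finrank_prod, h1, Module.finrank_pi, Fintype.card_fin]
  · let f : C(Z, (Prod.fst ⁻¹' Z : Set (Ξ × (Fin j → ℝ)))) :=
      ⟨fun z => ⟨(z.1, 0), z.2⟩, by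
        refine Continuous.subtype_mk ?_ _
        exact continuous_subtype_val.prodMk continuous_const⟩
    let r : C((Prod.fst ⁻¹' Z : Set (Ξ × (Fin j → ℝ))), Z) :=
      ⟨fun z => ⟨z.1.1, z.2⟩, by
        refine Continuous.subtype_mk ?_ _
        exact continuous_fst.comp continuous_subtype_val⟩
    exact h4.retract f r (by ext z; rfl)

/-! ### the function `g` -/

theorem exists_g {Y : Type} [NormedAddCommGroup Y] [NormedSpace ℝ Y] [FiniteDimensional ℝ Y]
    {k d : ℕ} (hk : 1 ≤ k) (hd : 0 < d) (hN : k + 3 ≤ Module.finrank ℝ Y + 1) :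
    ∃ g : ℝ × Y → ℝ, Good g ∧ HasOrd {p : ℝ × Y | p.1 < 0 ∨ 0 < g p} k d := by
  obtain ⟨Ξ, i1, i2, i3, Z, h1, h2, ⟨x, hx⟩, h4⟩ :=
    exists_Z k d (Module.finrank ℝ Y + 1) hk hd hN
  have hfin : Module.finrank ℝ (ℝ × Y) = Module.finrank ℝ Ξ := by
    rw [h1, Module.finrank_prod, Module.finrank_self, add_comm]
  let L : (ℝ × Y) ≃L[ℝ] Ξ := ContinuousLinearEquiv.ofFinrankEq hfin
  let F : ℝ × Y → Ξ := fun p => L (Real.log p.1, p.2)
  let U : Set (ℝ × Y) := {p | 0 < p.1 ∧ F p ∈ Z}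
  have hF : ∀ p : ℝ × Y, p.1 ≠ 0 → ContinuousAt F p := by
    intro p hp
    refine L.continuous.continuousAt.comp ?_
    exact ((Real.continuousAt_log hp).comp continuousAt_fst).prodMk continuousAt_snd
  have hU : IsOpen U := by
    have h5 : IsOpen {p : ℝ × Y | 0 < p.1} := isOpen_lt continuous_const continuous_fst
    have h6 : ContinuousOn F {p : ℝ × Y | 0 < p.1} := fun p hp =>
      (hF p (ne_of_gt hp)).continuousWithinAt
    exact h6.isOpen_inter_preimage h5 h2
  obtain ⟨g, hg1, hg2, hg3⟩ := hU.exists_contDiff_support_eq (n := ⊤)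
  have hg0 : ∀ p, 0 ≤ g p := fun p => (hg3 ⟨p, rfl⟩).1
  have hpos : ∀ p, 0 < g p ↔ p ∈ U := by
    intro p
    rw [← hg1, Function.mem_support]
    exact ⟨fun h => h.ne', fun h => lt_of_le_of_ne (hg0 p) (Ne.symm h)⟩
  refine ⟨g, ⟨hg2, hg0, ?_⟩, ?_⟩
  · intro s y hs
    by_contra h
    have h5 : (s, y) ∈ U := (hpos _).1 (lt_of_le_of_ne (hg0 _) (Ne.symm h))
    exact absurd h5.1 (not_lt.mpr hs)
  · have hfm : ∀ z : Z, 0 < g (Real.exp (L.symm z.1).1, (L.symm z.1).2) := by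
      intro z
      rw [hpos]
      refine ⟨Real.exp_pos _, ?_⟩
      change L (Real.log (Real.exp (L.symm z.1).1), (L.symm z.1).2) ∈ Z
      rw [Real.log_exp, L.apply_symm_apply]
      exact z.2
    let f : C(Z, ({p : ℝ × Y | p.1 < 0 ∨ 0 < g p} : Set (ℝ × Y))) :=
      ⟨fun z => ⟨(Real.exp (L.symm z.1).1, (L.symm z.1).2), Or.inr (hfm z)⟩, by
        refine Continuous.subtype_mk ?_ _
        have h5 : Continuous (fun z : Z => L.symm z.1) :=
          L.symm.continuous.comp continuous_subtype_val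
        exact (Real.continuous_exp.comp (continuous_fst.comp h5)).prodMk
          (continuous_snd.comp h5)⟩
    classical
    let r0 : ℝ × Y → Ξ := fun p => if 0 < p.1 then F p else x
    have hr0 : ∀ p : ({p : ℝ × Y | p.1 < 0 ∨ 0 < g p} : Set (ℝ × Y)), r0 p.1 ∈ Z := by
      intro p
      change (if 0 < p.1.1 then F p.1 else x) ∈ Z
      split_ifs with h5
      · rcases p.2 with h6 | h6
        · exact absurd h5 (not_lt.mpr h6.le)
        · exact ((hpos _).1 h6).2
      · exact hx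
    let r : C(({p : ℝ × Y | p.1 < 0 ∨ 0 < g p} : Set (ℝ × Y)), Z) :=
      ⟨fun p => ⟨r0 p.1, hr0 p⟩, by
        refine Continuous.subtype_mk ?_ _
        rw [continuous_iff_continuousAt]
        intro p
        have hp0 : p.1.1 ≠ 0 := by
          rcases p.2 with h6 | h6
          · exact h6.ne
          · exact (ne_of_gt ((hpos _).1 h6).1)
        refine ContinuousAt.comp (g := r0) ?_ continuousAt_subtype_val
        rcases lt_or_gt_of_ne hp0 with h6 | h6
        · have h7 : (fun _ => x) =ᶠ[𝓝 p.1] r0 := by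
            filter_upwards [(isOpen_lt (continuous_fst (X := ℝ) (Y := Y))
              continuous_const).mem_nhds h6] with q hq
            exact (if_neg (not_lt.mpr (le_of_lt hq))).symm
          exact continuousAt_const.congr h7
        · have h7 : F =ᶠ[𝓝 p.1] r0 := by
            filter_upwards [(isOpen_lt continuous_const
              (continuous_fst (X := ℝ) (Y := Y))).mem_nhds h6] with q hq
            exact (if_pos hq).symm
          exact (hF p.1 hp0).congr h7⟩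
    refine h4.retract f r ?_
    ext z
    change (if 0 < Real.exp (L.symm z.1).1 then
      L (Real.log (Real.exp (L.symm z.1).1), (L.symm z.1).2) else x) = z.1
    rw [if_pos (Real.exp_pos _), Real.log_exp, L.apply_symm_apply]

/-- the homology of the quotient -/
theorem ord_Qs {Y : Type} [NormedAddCommGroup Y] [NormedSpace ℝ Y] {g : ℝ × Y → ℝ} (hg : Good g)
    {k d : ℕ} (h : HasOrd {p : ℝ × Y | p.1 < 0 ∨ 0 < g p} k d) : HasOrd (Qs g) (k + 2) d := by
  have hV : IsOpen {p : ℝ × Y | p.1 < 0 ∨ 0 < g p} :=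
    (isOpen_lt continuous_fst continuous_const).union
      (isOpen_lt continuous_const hg.smooth.continuous)
  have h2 := (h.susp hV).susp (isOpen_Su hV)
  let f : C(Su (Su {p : ℝ × Y | p.1 < 0 ∨ 0 < g p}), Qs g) :=
    ⟨fun x => ⟨((⟨x.1.1, x.1.2.1⟩ : ℂ), x.1.2.2), by
      by_cases hz : (⟨x.1.1, x.1.2.1⟩ : ℂ) = 0
      · right
        have h3 := congrArg Complex.re hz
        have h4 := congrArg Complex.im hz
        rcases x.2 with h5 | h5 | h5
        · exact absurd h3 h5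
        · exact absurd h4 h5
        · exact h5
      · left; exact hz⟩, by
      refine Continuous.subtype_mk ?_ _
      have h3 : Continuous (fun x : Su (Su {p : ℝ × Y | p.1 < 0 ∨ 0 < g p}) =>
          (x.1.1, x.1.2.1)) := by fun_prop
      have h4 : Continuous (fun x : Su (Su {p : ℝ × Y | p.1 < 0 ∨ 0 < g p}) =>
          Complex.equivRealProdCLM.symm (x.1.1, x.1.2.1)) :=
        Complex.equivRealProdCLM.symm.continuous.comp h3
      have h5 : Continuous (fun x : Su (Su {p : ℝ × Y | p.1 < 0 ∨ 0 < g p}) => x.1.2.2) := by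
        fun_prop
      exact h4.prodMk h5⟩
  let r : C(Qs g, Su (Su {p : ℝ × Y | p.1 < 0 ∨ 0 < g p})) :=
    ⟨fun x => ⟨(x.1.1.re, (x.1.1.im, x.1.2)), by
      rcases x.2 with h3 | h3
      · by_cases h4 : x.1.1.re = 0
        · right; left
          intro h5
          exact h3 (Complex.ext h4 h5)
        · left; exact h4
      · right; right; exact h3⟩, by
      refine Continuous.subtype_mk ?_ _
      have h3 : Continuous (fun x : Qs g => x.1.1) := by fun_prop
      exact (Complex.continuous_re.comp h3).prodMk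
        ((Complex.continuous_im.comp h3).prodMk (by fun_prop))⟩
  exact h2.retract f r (by ext x <;> rfl)

/-! ### transport to Euclidean space -/

section transport

variable {Y : Type} [NormedAddCommGroup Y] [NormedSpace ℝ Y] [CompleteSpace Y] {g : ℝ × Y → ℝ}
  {E F : Type} [NormedAddCommGroup E] [NormedSpace ℝ E] [NormedAddCommGroup F] [NormedSpace ℝ F]

/-- the flow on `E` -/
def Fl (g : ℝ × Y → ℝ) (A : (ℂ × ℂ × Y) ≃L[ℝ] E) (t : ℝ) (x : E) : E := A (Th g t (A.symm x))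

theorem isFlow_Fl (hg : Good g) (A : (ℂ × ℂ × Y) ≃L[ℝ] E) : IsFlow (Fl g A) where
  smooth := by
    have h0 : ContDiff ℝ ∞ (fun q : ℝ × E => A.symm q.2) :=
      ContDiff.comp (g := fun x : E => A.symm x) (f := fun q : ℝ × E => q.2)
        A.symm.contDiff contDiff_snd
    have h1 : ContDiff ℝ ∞ (fun q : ℝ × E => ((q.1, A.symm q.2) : ℝ × (ℂ × ℂ × Y))) :=
      contDiff_fst.prodMk h0
    have h2 : ContDiff ℝ ∞ (fun q : ℝ × E => Th g q.1 (A.symm q.2)) :=
      ContDiff.comp (g := fun q : ℝ × (ℂ × ℂ × Y) => Th g q.1 q.2)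
        (f := fun q : ℝ × E => ((q.1, A.symm q.2) : ℝ × (ℂ × ℂ × Y))) (contDiff_Th hg) h1
    exact ContDiff.comp (g := fun x : ℂ × ℂ × Y => A x)
      (f := fun q : ℝ × E => Th g q.1 (A.symm q.2)) A.contDiff h2
  zero x := by
    unfold Fl
    rw [Th_zero, A.apply_symm_apply]
  add s t x := by
    unfold Fl
    rw [Th_add hg, A.symm_apply_apply]

/-- the quotient map to `F` -/
def qF (g : ℝ × Y → ℝ) (A : (ℂ × ℂ × Y) ≃L[ℝ] E) (B : (ℂ × ℝ × Y) ≃L[ℝ] F) (x : E) : F :=
  B (qm g (A.symm x))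

theorem qF_eq_iff (hg : Good g) (A : (ℂ × ℂ × Y) ≃L[ℝ] E) (B : (ℂ × ℝ × Y) ≃L[ℝ] F) (x y : E) :
    qF g A B x = qF g A B y ↔ ∃ t, Fl g A t x = y := by
  unfold qF Fl
  rw [B.injective.eq_iff, qm_eq_iff hg]
  constructor
  · rintro ⟨t, ht⟩
    exact ⟨t, by rw [ht, A.apply_symm_apply]⟩
  · rintro ⟨t, rfl⟩
    exact ⟨t, by rw [A.symm_apply_apply]⟩

theorem isOpenMap_qF (hg : Good g) (A : (ℂ × ℂ × Y) ≃L[ℝ] E) (B : (ℂ × ℝ × Y) ≃L[ℝ] F) :
    IsOpenMap (qF g A B) :=
  B.toHomeomorph.isOpenMap.comp ((isOpenMap_qm hg).comp A.symm.toHomeomorph.isOpenMap)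

theorem contDiff_qF (hg : Good g) (A : (ℂ × ℂ × Y) ≃L[ℝ] E) (B : (ℂ × ℝ × Y) ≃L[ℝ] F) :
    ContDiff ℝ ∞ (qF g A B) :=
  B.contDiff.comp ((contDiff_qm hg).comp A.symm.contDiff)

/-- the homeomorphism from the orbit space to the image of the quotient map -/
def orbHomeo (hg : Good g) (A : (ℂ × ℂ × Y) ≃L[ℝ] E) (B : (ℂ × ℝ × Y) ≃L[ℝ] F) :
    OrbitSpace (isFlow_Fl hg A) ≃ₜ range (qF g A B) := by
  let φ : OrbitSpace (isFlow_Fl hg A) → range (qF g A B) :=
    Quotient.lift (fun x => (⟨qF g A B x, x, rfl⟩ : range (qF g A B))) (by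
      rintro x y ⟨t, ht⟩
      exact Subtype.ext ((qF_eq_iff hg A B x y).2 ⟨t, ht⟩))
  have hφ : Function.Bijective φ := by
    constructor
    · intro a b
      induction a using Quotient.inductionOn with
      | h x =>
        induction b using Quotient.inductionOn with
        | h y =>
          intro hxy
          apply Quotient.sound
          exact (qF_eq_iff hg A B x y).1 (congrArg Subtype.val hxy)
    · rintro ⟨_, x, rfl⟩
      exact ⟨OrbitSpace.mk _ x, rfl⟩
  have hc : Continuous φ := by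
    apply Continuous.quotient_lift
    exact (contDiff_qF hg A B).continuous.subtype_mk _
  have ho : IsOpenMap φ := by
    intro U hU
    have h1 : IsOpen ((OrbitSpace.mk (isFlow_Fl hg A)) ⁻¹' U) :=
      hU.preimage continuous_quotient_mk'
    have h2 := isOpenMap_qF hg A B _ h1
    have h3 : φ '' U = Subtype.val ⁻¹' (qF g A B '' ((OrbitSpace.mk (isFlow_Fl hg A)) ⁻¹' U)) := by
      ext y
      constructor
      · rintro ⟨a, ha, rfl⟩
        induction a using Quotient.inductionOn with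
        | h x => exact ⟨x, ha, rfl⟩
      · rintro ⟨x, hx, hxy⟩
        exact ⟨OrbitSpace.mk _ x, hx, Subtype.ext hxy⟩
    rw [h3]
    exact h2.preimage continuous_subtype_val
  exact (Equiv.ofBijective φ hφ).toHomeomorphOfContinuousOpen hc ho

theorem orbHomeo_mk (hg : Good g) (A : (ℂ × ℂ × Y) ≃L[ℝ] E) (B : (ℂ × ℝ × Y) ≃L[ℝ] F) (x : E) :
    (orbHomeo hg A B (OrbitSpace.mk (isFlow_Fl hg A) x) : F) = qF g A B x := rfl

end transport

/-- existence of the flows -/
theorem exists_flow (n k d : ℕ) (hk : 3 ≤ k) (hn : k + 3 ≤ n) (hd : 0 < d) :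
    ∃ (Φ : ℝ → EuclideanSpace ℝ (Fin (n + 1)) → EuclideanSpace ℝ (Fin (n + 1))) (h : IsFlow Φ)
      (U : Set (EuclideanSpace ℝ (Fin n))) (e : OrbitSpace h ≃ₜ U), IsOpen U ∧
      ContDiff ℝ ∞ (fun x => (e (OrbitSpace.mk h x) : EuclideanSpace ℝ (Fin n))) ∧
      HasOrd (OrbitSpace h) k d := by
  obtain ⟨m, rfl⟩ : ∃ m, n = m + 3 := ⟨n - 3, by omega⟩
  obtain ⟨j, rfl⟩ : ∃ j, k = j + 2 := ⟨k - 2, by omega⟩
  let Y : Type := EuclideanSpace ℝ (Fin m)
  obtain ⟨g, hg, ho⟩ := exists_g (Y := EuclideanSpace ℝ (Fin m)) (k := j) (d := d) (by omega) hd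
    (by rw [finrank_euclideanSpace_fin]; omega)
  have hA : Module.finrank ℝ (ℂ × ℂ × EuclideanSpace ℝ (Fin m)) =
      Module.finrank ℝ (EuclideanSpace ℝ (Fin (m + 3 + 1))) := by
    rw [Module.finrank_prod, Module.finrank_prod, Complex.finrank_real_complex,
      finrank_euclideanSpace_fin, finrank_euclideanSpace_fin]
    ring
  have hB : Module.finrank ℝ (ℂ × ℝ × EuclideanSpace ℝ (Fin m)) =
      Module.finrank ℝ (EuclideanSpace ℝ (Fin (m + 3))) := by
    rw [Module.finrank_prod, Module.finrank_prod, Complex.finrank_real_complex,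
      finrank_euclideanSpace_fin, finrank_euclideanSpace_fin, Module.finrank_self]
    ring
  let A : (ℂ × ℂ × EuclideanSpace ℝ (Fin m)) ≃L[ℝ] EuclideanSpace ℝ (Fin (m + 3 + 1)) :=
    ContinuousLinearEquiv.ofFinrankEq hA
  let B : (ℂ × ℝ × EuclideanSpace ℝ (Fin m)) ≃L[ℝ] EuclideanSpace ℝ (Fin (m + 3)) :=
    ContinuousLinearEquiv.ofFinrankEq hB
  refine ⟨Fl g A, isFlow_Fl hg A, range (qF g A B), orbHomeo hg A B,
    (isOpenMap_qF hg A B).isOpen_range, contDiff_qF hg A B, ?_⟩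
  -- homology
  have h1 : HasOrd (Qs g) (j + 2) d := ord_Qs hg ho
  have hmem : ∀ q : Qs g, B q.1 ∈ range (qF g A B) := by
    intro q
    have : q.1 ∈ range (qm g) := by rw [range_qm hg]; exact q.2
    obtain ⟨p, hp⟩ := this
    exact ⟨A p, by unfold qF; rw [A.symm_apply_apply, hp]⟩
  have hmem' : ∀ q : range (qF g A B), B.symm q.1 ∈ Qs g := by
    rintro ⟨_, x, rfl⟩
    change B.symm (B (qm g (A.symm x))) ∈ Qs g
    rw [B.symm_apply_apply, ← range_qm hg]
    exact ⟨_, rfl⟩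
  let f1 : C(Qs g, range (qF g A B)) := ⟨fun q => ⟨B q.1, hmem q⟩,
    (B.continuous.comp continuous_subtype_val).subtype_mk _⟩
  let r1 : C(range (qF g A B), Qs g) := ⟨fun q => ⟨B.symm q.1, hmem' q⟩,
    (B.symm.continuous.comp continuous_subtype_val).subtype_mk _⟩
  let e := orbHomeo hg A B
  let f2 : C(range (qF g A B), OrbitSpace (isFlow_Fl hg A)) := ⟨e.symm, e.symm.continuous⟩
  let r2 : C(OrbitSpace (isFlow_Fl hg A), range (qF g A B)) := ⟨e, e.continuous⟩
  refine h1.retract (f2.comp f1) (r1.comp r2) ?_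
  apply ContinuousMap.ext
  intro q
  change r1 (e (e.symm (f1 q))) = q
  rw [e.apply_symm_apply]
  apply Subtype.ext
  exact B.symm_apply_apply _

end

end Pool.Agent.Q133.FT
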