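import Mathlib

/-!
# An explicit family of smooth flows (for MP_c8cff9_gt)

`Y` is a real normed space and `g : ℝ × Y → ℝ` a smooth nonnegative function which vanishes at
`(s, y)` for `s ≤ 0`.  On the open subset `W g` of `ℂ × ℂ × Y`, the set of `(a, b, y)` with
`b + g(|a|², y)` not in `(-∞, 0]`, there is an explicit smooth flow whose orbits are the
intersections of `W g` with the orbits of the diagonal circle action.
-/

set_option autoImplicit false
set_option linter.unusedSectionVars false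
open Set Topology Complex
open scoped ContDiff ComplexConjugate

namespace Pool.Agent.Q133.FT

noncomputable section

/-! ### the function `sin x / x` -/

/-- `sin x / x` as a smooth function -/
def sc (x : ℝ) : ℝ := (dslope Complex.sin 0 (x : ℂ)).re

theorem sc_mul (x : ℝ) : x * sc x = Real.sin x := by
  have h := sub_smul_dslope Complex.sin 0 (x : ℂ)
  rw [sub_zero, Complex.sin_zero, sub_zero, smul_eq_mul] at h
  have h2 := congrArg Complex.re h
  rw [Complex.re_ofReal_mul, ← Complex.ofReal_sin, Complex.ofReal_re] at h2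
  exact h2

theorem sc_zero : sc 0 = 1 := by
  unfold sc
  rw [Complex.ofReal_zero, dslope_same, Complex.deriv_sin, Complex.cos_zero, Complex.one_re]

theorem contDiff_sc : ContDiff ℝ ∞ sc := by
  have h1 : Differentiable ℂ (dslope Complex.sin 0) := by
    rw [← differentiableOn_univ]
    rw [Complex.differentiableOn_dslope Filter.univ_mem]
    exact Complex.differentiable_sin.differentiableOn
  have h2 : ContDiff ℂ ∞ (dslope Complex.sin 0) := h1.contDiff
  have h3 : ContDiff ℝ ∞ (dslope Complex.sin 0) := h2.restrict_scalars ℝ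
  exact Complex.reCLM.contDiff.comp (h3.comp Complex.ofRealCLM.contDiff)

/-- cosine part -/
def Cc (e t : ℝ) : ℝ := Real.cos (e * t)
/-- sine part -/
def Ss (e t : ℝ) : ℝ := t * sc (e * t)

theorem Ss_e (e t : ℝ) : e * Ss e t = Real.sin (e * t) := by
  rw [← sc_mul, Ss]; ring

theorem Ss_zero (t : ℝ) : Ss 0 t = t := by rw [Ss, zero_mul, sc_zero, mul_one]

theorem Cc_zero (t : ℝ) : Cc 0 t = 1 := by rw [Cc, zero_mul, Real.cos_zero]

theorem CS_one (e t : ℝ) : Cc e t ^ 2 + e ^ 2 * Ss e t ^ 2 = 1 := by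
  have := Real.cos_sq_add_sin_sq (e * t)
  rw [← Ss_e] at this
  rw [Cc]; linarith [this, mul_pow e (Ss e t) 2]

theorem Cc_add (e s t : ℝ) : Cc e (s + t) = Cc e s * Cc e t - e ^ 2 * (Ss e s * Ss e t) := by
  have : e ^ 2 * (Ss e s * Ss e t) = (e * Ss e s) * (e * Ss e t) := by ring
  rw [this, Ss_e, Ss_e, Cc, mul_add, Real.cos_add, Cc, Cc]

theorem Ss_add (e s t : ℝ) : Ss e (s + t) = Ss e s * Cc e t + Cc e s * Ss e t := by
  by_cases he : e = 0
  · subst he; simp only [Ss_zero, Cc_zero]; ring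
  · apply mul_left_cancel₀ he
    rw [Ss_e, mul_add e s t, Real.sin_add]
    have : e * (Ss e s * Cc e t + Cc e s * Ss e t) =
      (e * Ss e s) * Cc e t + Cc e s * (e * Ss e t) := by ring
    rw [this, Ss_e, Ss_e, Cc, Cc]

theorem contDiff_Cc : ContDiff ℝ ∞ (fun p : ℝ × ℝ => Cc p.1 p.2) :=
  Real.contDiff_cos.comp (contDiff_fst.mul contDiff_snd)

theorem contDiff_Ss : ContDiff ℝ ∞ (fun p : ℝ × ℝ => Ss p.1 p.2) :=
  contDiff_snd.mul (contDiff_sc.comp (contDiff_fst.mul contDiff_snd))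

/-! ### the data -/

variable {Y : Type*} [NormedAddCommGroup Y] [NormedSpace ℝ Y]

/-- the assumptions on `g` -/
structure Good (g : ℝ × Y → ℝ) : Prop where
  smooth : ContDiff ℝ ∞ g
  nonneg : ∀ p, 0 ≤ g p
  vanish : ∀ s y, s ≤ 0 → g (s, y) = 0

variable (g : ℝ × Y → ℝ)

/-- `τ(a, y) = g(|a|², y)` -/
def tau (p : ℂ × ℂ × Y) : ℝ := g (normSq p.1, p.2.2)

/-- a function which is positive exactly where `|b| < τ` -/
def ee (p : ℂ × ℂ × Y) : ℝ := expNegInvGlue (tau g p ^ 2 - normSq p.2.1)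

/-- `A = √(|b|² + e²)` -/
def AA (p : ℂ × ℂ × Y) : ℝ := Real.sqrt (normSq p.2.1 + ee g p ^ 2)

theorem AA_sq (p : ℂ × ℂ × Y) : AA g p ^ 2 = normSq p.2.1 + ee g p ^ 2 :=
  Real.sq_sqrt (by have := normSq_nonneg p.2.1; positivity)

theorem AA_nonneg (p : ℂ × ℂ × Y) : 0 ≤ AA g p := Real.sqrt_nonneg _

/-- the total space -/
def W : Set (ℂ × ℂ × Y) := {p | p.2.1 + (tau g p : ℂ) ∈ slitPlane}

/-- real part of `ν` -/
def nr (t : ℝ) (p : ℂ × ℂ × Y) : ℝ := Cc (ee g p) t + Ss (ee g p) t * p.2.1.im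
/-- imaginary part of `ν` -/
def ni (t : ℝ) (p : ℂ × ℂ × Y) : ℝ := Ss (ee g p) t * (AA g p + p.2.1.re)
/-- the cocycle `ν` -/
def nu (t : ℝ) (p : ℂ × ℂ × Y) : ℂ := (nr g t p : ℂ) + (ni g t p : ℂ) * I

/-- the multiplier -/
def mu (t : ℝ) (p : ℂ × ℂ × Y) : ℂ := nu g t p * (conj (nu g t p))⁻¹

/-- the flow -/
def Phi (t : ℝ) (p : ℂ × ℂ × Y) : ℂ × ℂ × Y := (mu g t p * p.1, mu g t p * p.2.1, p.2.2)

theorem normSq_eq (z : ℂ) : normSq z = z.re ^ 2 + z.im ^ 2 := by rw [normSq_apply]; ring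

theorem nu_ne (t : ℝ) (p : ℂ × ℂ × Y) : nu g t p ≠ 0 := by
  intro h
  have h1 : nr g t p = 0 := by simpa [nu] using congrArg Complex.re h
  have h2 : ni g t p = 0 := by simpa [nu] using congrArg Complex.im h
  have hA := AA_sq g p
  rw [normSq_eq] at hA
  have hc := CS_one (ee g p) t
  unfold nr at h1
  unfold ni at h2
  rcases mul_eq_zero.mp h2 with h3 | h3
  · rw [h3] at h1 hc
    have : Cc (ee g p) t = 0 := by linarith
    rw [this] at hc
    norm_num at hc
  · have h4 : AA g p = - p.2.1.re := by linarith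
    rw [h4] at hA
    have h5 : p.2.1.im ^ 2 + ee g p ^ 2 = 0 := by nlinarith
    have h6 : p.2.1.im = 0 := by nlinarith [sq_nonneg p.2.1.im, sq_nonneg (ee g p)]
    have h7 : ee g p = 0 := by nlinarith [sq_nonneg p.2.1.im, sq_nonneg (ee g p)]
    rw [h6, h7, mul_zero, add_zero, Cc_zero] at h1
    norm_num at h1

theorem conj_nu_ne (t : ℝ) (p : ℂ × ℂ × Y) : conj (nu g t p) ≠ 0 := by
  rw [Ne, map_eq_zero]; exact nu_ne g t p

theorem normSq_mu (t : ℝ) (p : ℂ × ℂ × Y) : normSq (mu g t p) = 1 := by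
  unfold mu
  rw [normSq_mul, normSq_inv, normSq_conj]
  exact mul_inv_cancel₀ (by rw [Ne, normSq_eq_zero]; exact nu_ne g t p)

theorem mu_conj (t : ℝ) (p : ℂ × ℂ × Y) : mu g t p * conj (mu g t p) = 1 := by
  rw [mul_conj, normSq_mu, ofReal_one]

theorem mu_ne (t : ℝ) (p : ℂ × ℂ × Y) : mu g t p ≠ 0 := by
  intro h
  have := normSq_mu g t p
  rw [h, normSq_zero] at this
  norm_num at this

theorem tau_Phi (t : ℝ) (p : ℂ × ℂ × Y) : tau g (Phi g t p) = tau g p := by
  unfold tau Phi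
  simp only [normSq_mul, normSq_mu, one_mul]

theorem ee_Phi (t : ℝ) (p : ℂ × ℂ × Y) : ee g (Phi g t p) = ee g p := by
  unfold ee
  rw [tau_Phi]
  unfold Phi
  simp only [normSq_mul, normSq_mu, one_mul]

theorem AA_Phi (t : ℝ) (p : ℂ × ℂ × Y) : AA g (Phi g t p) = AA g p := by
  unfold AA
  rw [ee_Phi]
  unfold Phi
  simp only [normSq_mul, normSq_mu, one_mul]

theorem nu_eq (t : ℝ) (p : ℂ × ℂ × Y) : nu g t p =
    (Cc (ee g p) t : ℂ) + I * (Ss (ee g p) t : ℂ) * ((AA g p : ℂ) + conj p.2.1) := by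
  unfold nu nr ni
  apply Complex.ext <;> simp

theorem nu_add (s t : ℝ) (p : ℂ × ℂ × Y) :
    nu g (s + t) p = nu g s (Phi g t p) * nu g t p := by
  have h1 : conj (Phi g t p).2.1 * nu g t p = conj p.2.1 * conj (nu g t p) := by
    change conj (mu g t p * p.2.1) * nu g t p = _
    unfold mu
    rw [map_mul, map_mul, map_inv₀, conj_conj]
    have := nu_ne g t p
    field_simp
  have h2 : nu g s (Phi g t p) * nu g t p =
      ((Cc (ee g p) s : ℂ) + I * (Ss (ee g p) s : ℂ) * (AA g p : ℂ)) * nu g t p +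
      I * (Ss (ee g p) s : ℂ) * (conj p.2.1 * conj (nu g t p)) := by
    rw [← h1, nu_eq g s, ee_Phi, AA_Phi]
    ring
  have hA : (AA g p : ℂ) ^ 2 = p.2.1 * conj p.2.1 + (ee g p : ℂ) ^ 2 := by
    rw [mul_conj]
    exact_mod_cast AA_sq g p
  have hc : conj (nu g t p) = (Cc (ee g p) t : ℂ) -
      I * (Ss (ee g p) t : ℂ) * ((AA g p : ℂ) + p.2.1) := by
    rw [nu_eq]
    simp only [map_add, map_mul, conj_I, conj_ofReal, conj_conj]
    ring
  rw [h2, hc, nu_eq g t, nu_eq g (s + t), Cc_add, Ss_add]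
  push_cast
  have hI : I * I = -1 := I_mul_I
  linear_combination ((Ss (ee g p) s : ℂ) * (Ss (ee g p) t : ℂ)) * hA +
    (-(Ss (ee g p) s : ℂ) * (Ss (ee g p) t : ℂ) * ((AA g p : ℂ) ^ 2 - p.2.1 * conj p.2.1)) * hI

theorem mu_add (s t : ℝ) (p : ℂ × ℂ × Y) :
    mu g (s + t) p = mu g s (Phi g t p) * mu g t p := by
  unfold mu
  rw [nu_add, map_mul, mul_inv]
  ring

theorem Phi_add (s t : ℝ) (p : ℂ × ℂ × Y) : Phi g (s + t) p = Phi g s (Phi g t p) := by
  have h := mu_add g s t p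
  refine Prod.ext ?_ (Prod.ext ?_ rfl)
  · change mu g (s + t) p * p.1 = mu g s (Phi g t p) * (mu g t p * p.1)
    rw [h]; ring
  · change mu g (s + t) p * p.2.1 = mu g s (Phi g t p) * (mu g t p * p.2.1)
    rw [h]; ring

theorem Phi_zero (p : ℂ × ℂ × Y) : Phi g 0 p = p := by
  have h : mu g 0 p = 1 := by
    unfold mu
    rw [nu_eq]
    have h1 : Cc (ee g p) 0 = 1 := by rw [Cc, mul_zero, Real.cos_zero]
    have h2 : Ss (ee g p) 0 = 0 := by rw [Ss, zero_mul]
    rw [h1, h2]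
    simp
  unfold Phi
  rw [h, one_mul, one_mul]

theorem ee_nonneg (p : ℂ × ℂ × Y) : 0 ≤ ee g p := expNegInvGlue.nonneg _

variable {g}

theorem mem_W_iff (hg : Good g) (p : ℂ × ℂ × Y) : p ∈ W g ↔ 0 < AA g p + p.2.1.re := by
  have hτ : 0 ≤ tau g p := hg.nonneg _
  have hA := AA_sq g p
  have hA0 := AA_nonneg g p
  have he := ee_nonneg g p
  rw [normSq_eq] at hA
  unfold W
  rw [mem_ofPred_eq, mem_slitPlane_iff]
  simp only [add_re, ofReal_re, add_im, ofReal_im, add_zero]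
  constructor
  · rintro (h | h)
    · by_contra hc
      have h1 : AA g p ≤ - p.2.1.re := by linarith
      have h2 : p.2.1.im ^ 2 + ee g p ^ 2 ≤ 0 := by nlinarith
      have h3 : p.2.1.im = 0 := by nlinarith [sq_nonneg p.2.1.im, sq_nonneg (ee g p)]
      have h4 : ee g p = 0 := by nlinarith [sq_nonneg p.2.1.im, sq_nonneg (ee g p)]
      unfold ee at h4
      rw [expNegInvGlue.zero_iff_nonpos, normSq_eq, h3] at h4
      nlinarith
    · by_contra hc
      have h1 : AA g p ≤ - p.2.1.re := by linarith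
      have h2 : p.2.1.im ^ 2 + ee g p ^ 2 ≤ 0 := by nlinarith
      have h3 : 0 < p.2.1.im ^ 2 := by positivity
      nlinarith [sq_nonneg (ee g p)]
  · intro h
    by_contra hc
    push Not at hc
    obtain ⟨h1, h2⟩ := hc
    have h4 : ee g p = 0 := by
      unfold ee
      rw [expNegInvGlue.zero_iff_nonpos, normSq_eq, h2]
      nlinarith
    rw [h4, h2] at hA
    have h5 : AA g p ^ 2 = p.2.1.re ^ 2 := by linarith
    nlinarith

theorem pos_of_W (hg : Good g) {p : ℂ × ℂ × Y} (hp : p ∈ W g) :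
    0 < normSq p.2.1 + ee g p ^ 2 := by
  rw [mem_W_iff hg] at hp
  have hA := AA_sq g p
  rcases (add_nonneg (normSq_nonneg p.2.1) (sq_nonneg (ee g p))).eq_or_lt with h | h
  · rw [← h] at hA
    have h1 : AA g p = 0 := by simpa using hA
    have h2 : normSq p.2.1 = 0 := by nlinarith [normSq_nonneg p.2.1, sq_nonneg (ee g p)]
    rw [normSq_eq_zero] at h2
    rw [h1, h2] at hp
    simp at hp
  · exact h

theorem normSq_nu (t : ℝ) (p : ℂ × ℂ × Y) : normSq (nu g t p) = nr g t p ^ 2 + ni g t p ^ 2 := by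
  rw [normSq_eq]
  simp [nu]

theorem AA_re_Phi (t : ℝ) (p : ℂ × ℂ × Y) :
    (AA g p + (Phi g t p).2.1.re) * normSq (nu g t p) = AA g p + p.2.1.re := by
  have h0 : normSq (nu g t p) ≠ 0 := by rw [Ne, normSq_eq_zero]; exact nu_ne g t p
  have h1 : (Phi g t p).2.1 * (normSq (nu g t p) : ℂ) = p.2.1 * nu g t p ^ 2 := by
    change mu g t p * p.2.1 * _ = _
    unfold mu
    rw [← mul_conj]
    have := conj_nu_ne g t p
    field_simp
  have h2 := congrArg Complex.re h1
  rw [re_mul_ofReal] at h2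
  have h3 : (p.2.1 * nu g t p ^ 2).re = p.2.1.re * (nr g t p ^ 2 - ni g t p ^ 2) -
      2 * p.2.1.im * (nr g t p * ni g t p) := by
    rw [sq, mul_re, mul_re, mul_im]
    simp [nu]
    ring
  have hA := AA_sq g p
  rw [normSq_eq] at hA
  have hc := CS_one (ee g p) t
  rw [add_mul, h2, h3, normSq_nu]
  unfold nr ni
  linear_combination ((AA g p + p.2.1.re) * Ss (ee g p) t ^ 2) * hA + (AA g p + p.2.1.re) * hc

theorem Phi_mem_W (hg : Good g) (t : ℝ) {p : ℂ × ℂ × Y} (hp : p ∈ W g) : Phi g t p ∈ W g := by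
  rw [mem_W_iff hg] at hp ⊢
  rw [AA_Phi]
  have h := AA_re_Phi (g := g) t p
  have h0 : 0 ≤ normSq (nu g t p) := normSq_nonneg _
  by_contra hc
  nlinarith

end

end Pool.Agent.Q133.FT
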