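import Pool.Agent.Q133.FT.Flow

/-!
# Smoothness, orbits and quotient map of the flows of `Flow.lean`
-/

set_option autoImplicit false
set_option linter.unusedSectionVars false
open Set Topology Complex
open scoped ContDiff ComplexConjugate

namespace Pool.Agent.Q133.FT

noncomputable section

variable {Y : Type*} [NormedAddCommGroup Y] [NormedSpace ℝ Y] {g : ℝ × Y → ℝ}

/-! ### smoothness -/

theorem contDiff_normSq : ContDiff ℝ ∞ (fun z : ℂ => normSq z) := by
  have : (fun z : ℂ => normSq z) = fun z => z.re * z.re + z.im * z.im := by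
    funext z; exact normSq_apply z
  rw [this]
  exact (Complex.reCLM.contDiff.mul Complex.reCLM.contDiff).add
    (Complex.imCLM.contDiff.mul Complex.imCLM.contDiff)

theorem contDiff_tau (hg : Good g) : ContDiff ℝ ∞ (tau g) :=
  hg.smooth.comp ((contDiff_normSq.comp contDiff_fst).prodMk (contDiff_snd.comp contDiff_snd))

theorem contDiff_ee (hg : Good g) : ContDiff ℝ ∞ (ee g) :=
  expNegInvGlue.contDiff.comp (((contDiff_tau hg).pow 2).sub
    (contDiff_normSq.comp (contDiff_fst.comp contDiff_snd)))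

theorem contDiffAt_AA (hg : Good g) {p : ℂ × ℂ × Y} (hp : p ∈ W g) : ContDiffAt ℝ ∞ (AA g) p := by
  refine ContDiffAt.sqrt ?_ (pos_of_W hg hp).ne'
  exact ((contDiff_normSq.comp (contDiff_fst.comp contDiff_snd)).add
    ((contDiff_ee hg).pow 2)).contDiffAt

theorem contDiffAt_nu (hg : Good g) {q : ℝ × (ℂ × ℂ × Y)} (hp : q.2 ∈ W g) :
    ContDiffAt ℝ ∞ (fun q : ℝ × (ℂ × ℂ × Y) => nu g q.1 q.2) q := by
  have he : ContDiffAt ℝ ∞ (fun q : ℝ × (ℂ × ℂ × Y) => ee g q.2) q :=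
    ((contDiff_ee hg).comp contDiff_snd).contDiffAt
  have hA : ContDiffAt ℝ ∞ (fun q : ℝ × (ℂ × ℂ × Y) => AA g q.2) q :=
    ContDiffAt.comp (g := AA g) (f := Prod.snd) q (contDiffAt_AA hg hp) contDiffAt_snd
  have hp2 : ContDiffAt ℝ ∞ (fun q : ℝ × (ℂ × ℂ × Y) => (ee g q.2, q.1)) q :=
    he.prodMk contDiff_fst.contDiffAt
  have hC : ContDiffAt ℝ ∞ (fun q : ℝ × (ℂ × ℂ × Y) => Cc (ee g q.2) q.1) q :=
    ContDiffAt.comp (g := fun p : ℝ × ℝ => Cc p.1 p.2)
      (f := fun q : ℝ × (ℂ × ℂ × Y) => (ee g q.2, q.1)) q contDiff_Cc.contDiffAt hp2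
  have hS : ContDiffAt ℝ ∞ (fun q : ℝ × (ℂ × ℂ × Y) => Ss (ee g q.2) q.1) q :=
    ContDiffAt.comp (g := fun p : ℝ × ℝ => Ss p.1 p.2)
      (f := fun q : ℝ × (ℂ × ℂ × Y) => (ee g q.2, q.1)) q contDiff_Ss.contDiffAt hp2
  have hb : ContDiff ℝ ∞ (fun q : ℝ × (ℂ × ℂ × Y) => q.2.2.1) := by fun_prop
  have hre : ContDiffAt ℝ ∞ (fun q : ℝ × (ℂ × ℂ × Y) => q.2.2.1.re) q :=
    (Complex.reCLM.contDiff.comp hb).contDiffAt
  have him : ContDiffAt ℝ ∞ (fun q : ℝ × (ℂ × ℂ × Y) => q.2.2.1.im) q :=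
    (Complex.imCLM.contDiff.comp hb).contDiffAt
  have h1 : ContDiffAt ℝ ∞ (fun q : ℝ × (ℂ × ℂ × Y) => nr g q.1 q.2) q := hC.add (hS.mul him)
  have h2 : ContDiffAt ℝ ∞ (fun q : ℝ × (ℂ × ℂ × Y) => ni g q.1 q.2) q := hS.mul (hA.add hre)
  have h1' : ContDiffAt ℝ ∞ (fun q : ℝ × (ℂ × ℂ × Y) => (nr g q.1 q.2 : ℂ)) q :=
    ContDiffAt.comp (g := fun x : ℝ => (x : ℂ)) (f := fun q : ℝ × (ℂ × ℂ × Y) => nr g q.1 q.2) q
      Complex.ofRealCLM.contDiff.contDiffAt h1
  have h2' : ContDiffAt ℝ ∞ (fun q : ℝ × (ℂ × ℂ × Y) => (ni g q.1 q.2 : ℂ)) q :=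
    ContDiffAt.comp (g := fun x : ℝ => (x : ℂ)) (f := fun q : ℝ × (ℂ × ℂ × Y) => ni g q.1 q.2) q
      Complex.ofRealCLM.contDiff.contDiffAt h2
  exact h1'.add (h2'.mul contDiffAt_const)

theorem contDiffAt_mu (hg : Good g) {q : ℝ × (ℂ × ℂ × Y)} (hp : q.2 ∈ W g) :
    ContDiffAt ℝ ∞ (fun q : ℝ × (ℂ × ℂ × Y) => mu g q.1 q.2) q := by
  have h := contDiffAt_nu hg hp
  refine h.mul (ContDiffAt.inv ?_ (conj_nu_ne g q.1 q.2))
  exact ContDiffAt.comp (g := fun z : ℂ => conj z)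
    (f := fun q : ℝ × (ℂ × ℂ × Y) => nu g q.1 q.2) q Complex.conjCLE.contDiff.contDiffAt h

theorem contDiffAt_Phi (hg : Good g) {q : ℝ × (ℂ × ℂ × Y)} (hp : q.2 ∈ W g) :
    ContDiffAt ℝ ∞ (fun q : ℝ × (ℂ × ℂ × Y) => Phi g q.1 q.2) q := by
  have h := contDiffAt_mu hg hp
  have ha : ContDiff ℝ ∞ (fun q : ℝ × (ℂ × ℂ × Y) => q.2.1) := by fun_prop
  have hb : ContDiff ℝ ∞ (fun q : ℝ × (ℂ × ℂ × Y) => q.2.2.1) := by fun_prop
  have hy : ContDiff ℝ ∞ (fun q : ℝ × (ℂ × ℂ × Y) => q.2.2.2) := by fun_prop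
  exact (h.mul ha.contDiffAt).prodMk ((h.mul hb.contDiffAt).prodMk hy.contDiffAt)

theorem isOpen_W (hg : Good g) : IsOpen (W g) := by
  refine Complex.isOpen_slitPlane.preimage ?_
  have h := (contDiff_tau hg).continuous
  exact (continuous_fst.comp continuous_snd).add (Complex.continuous_ofReal.comp h)

/-! ### the quotient map -/

/-- the quotient map `(a, b, y) ↦ (a b̄, |a|² - |b|², y)` -/
def pr (p : ℂ × ℂ × Y) : ℂ × ℝ × Y := (p.1 * conj p.2.1, normSq p.1 - normSq p.2.1, p.2.2)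

theorem contDiff_pr : ContDiff ℝ ∞ (pr (Y := Y)) := by
  refine ContDiff.prodMk (contDiff_fst.mul
    (Complex.conjCLE.contDiff.comp (contDiff_fst.comp contDiff_snd))) (ContDiff.prodMk ?_
    (contDiff_snd.comp contDiff_snd))
  exact (contDiff_normSq.comp contDiff_fst).sub
    (contDiff_normSq.comp (contDiff_fst.comp contDiff_snd))

theorem pr_Phi (t : ℝ) (p : ℂ × ℂ × Y) : pr (Phi g t p) = pr p := by
  unfold pr Phi
  refine Prod.ext ?_ (Prod.ext ?_ rfl)
  · change mu g t p * p.1 * conj (mu g t p * p.2.1) = _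
    rw [map_mul]
    linear_combination (p.1 * conj p.2.1) * mu_conj g t p
  · change normSq (mu g t p * p.1) - normSq (mu g t p * p.2.1) = _
    rw [normSq_mul, normSq_mul, normSq_mu, one_mul, one_mul]

theorem sums_eq {x y x' y' : ℝ} (hx : 0 ≤ x) (hy : 0 ≤ y) (hx' : 0 ≤ x') (hy' : 0 ≤ y')
    (h1 : x * y = x' * y') (h2 : x - y = x' - y') : x = x' ∧ y = y' := by
  have h3 : (x + y) ^ 2 = (x' + y') ^ 2 := by
    have e1 : (x + y) ^ 2 = (x - y) ^ 2 + 4 * (x * y) := by ring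
    have e2 : (x' + y') ^ 2 = (x' - y') ^ 2 + 4 * (x' * y') := by ring
    rw [e1, e2, h1, h2]
  have h4 : x + y = x' + y' := by
    have := abs_eq_abs.mpr ((sq_eq_sq_iff_eq_or_eq_neg).mp h3)
    rwa [abs_of_nonneg (by positivity), abs_of_nonneg (by positivity)] at this
  constructor <;> linarith

theorem exists_unit {p q : ℂ × ℂ × Y} (h : pr p = pr q) :
    ∃ l : ℂ, normSq l = 1 ∧ q.1 = l * p.1 ∧ q.2.1 = l * p.2.1 := by
  have h1 : p.1 * conj p.2.1 = q.1 * conj q.2.1 := congrArg Prod.fst h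
  have h2 : normSq p.1 - normSq p.2.1 = normSq q.1 - normSq q.2.1 :=
    congrArg (fun z => z.2.1) h
  have h3 : normSq p.1 * normSq p.2.1 = normSq q.1 * normSq q.2.1 := by
    have := congrArg normSq h1
    rwa [normSq_mul, normSq_mul, normSq_conj, normSq_conj] at this
  obtain ⟨h4, h5⟩ := sums_eq (normSq_nonneg _) (normSq_nonneg _) (normSq_nonneg _)
    (normSq_nonneg _) h3 h2
  by_cases hb : p.2.1 = 0
  · have hb' : q.2.1 = 0 := by
      rw [← normSq_eq_zero, ← h5, hb, normSq_zero]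
    by_cases ha : p.1 = 0
    · have ha' : q.1 = 0 := by rw [← normSq_eq_zero, ← h4, ha, normSq_zero]
      exact ⟨1, by simp, by rw [ha, ha', mul_zero], by rw [hb, hb', mul_zero]⟩
    · refine ⟨q.1 / p.1, ?_, by field_simp, by rw [hb, hb', mul_zero]⟩
      rw [normSq_div, h4]
      apply div_self
      rw [← h4, Ne, normSq_eq_zero]
      exact ha
  · refine ⟨q.2.1 / p.2.1, ?_, ?_, by field_simp⟩
    · rw [normSq_div, h5]
      apply div_self
      rw [← h5, Ne, normSq_eq_zero]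
      exact hb
    · have hb' : q.2.1 ≠ 0 := by
        rw [Ne, ← normSq_eq_zero, ← h5, normSq_eq_zero]; exact hb
      have hcb : conj q.2.1 ≠ 0 := by rwa [Ne, map_eq_zero]
      apply mul_right_cancel₀ hcb
      rw [← h1]
      have e1 : q.2.1 / p.2.1 * p.1 * conj q.2.1 = (q.2.1 * conj q.2.1) * p.1 / p.2.1 := by ring
      rw [e1, mul_conj, ← h5, ← mul_conj]
      field_simp

theorem exists_time_aux {e q k : ℝ} (h : e = 0 → q ≠ 0) : ∃ t, Ss e t * q = Cc e t * k := by
  by_cases he : e = 0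
  · subst he
    refine ⟨k / q, ?_⟩
    rw [Ss_zero, Cc_zero]
    have := h rfl
    field_simp
  · let z : ℂ := ⟨q, e * k⟩
    refine ⟨Complex.arg z / e, ?_⟩
    apply mul_left_cancel₀ he
    have h1 : e * (Complex.arg z / e) = Complex.arg z := by field_simp
    have h2 : e * (Ss e (Complex.arg z / e) * q) = Real.sin (Complex.arg z) * q := by
      rw [← mul_assoc, Ss_e, h1]
    rw [h2, Cc, h1]
    have h3 : ‖z‖ * Real.cos (Complex.arg z) = q := Complex.norm_mul_cos_arg z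
    have h4 : ‖z‖ * Real.sin (Complex.arg z) = e * k := Complex.norm_mul_sin_arg z
    rw [← h3]
    have h5 : e * (Real.cos (Complex.arg z) * k) = Real.cos (Complex.arg z) * (e * k) := by ring
    rw [h5, ← h4]
    ring

theorem exists_time (hg : Good g) {p q : ℂ × ℂ × Y} (hp : p ∈ W g) (hq : q ∈ W g)
    (h : pr p = pr q) : ∃ t, Phi g t p = q := by
  obtain ⟨l, hl, hqa, hqb⟩ := exists_unit h
  have hy : q.2.2 = p.2.2 := (congrArg (fun z => z.2.2) h).symm
  have hAq : AA g q = AA g p ∧ ee g q = ee g p := by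
    have h1 : tau g q = tau g p := by
      unfold tau; rw [hqa, hy, normSq_mul, hl, one_mul]
    have h2 : ee g q = ee g p := by
      unfold ee; rw [h1, hqb, normSq_mul, hl, one_mul]
    refine ⟨?_, h2⟩
    unfold AA
    rw [h2, hqb, normSq_mul, hl, one_mul]
  rw [mem_W_iff hg] at hp hq
  rw [hAq.1] at hq
  obtain ⟨k, hk⟩ := IsAlgClosed.exists_pow_nat_eq l (n := 2) (by norm_num)
  have hk1 : normSq k = 1 := by
    have h1 : normSq k ^ 2 = 1 := by rw [← map_pow, hk, hl]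
    nlinarith [normSq_nonneg k]
  have hk2 : k * conj k = 1 := by rw [mul_conj, hk1, ofReal_one]
  have hk0 : k ≠ 0 := by rintro rfl; simp at hk1
  set Q := (AA g p + p.2.1.re) * k.re - p.2.1.im * k.im with hQ
  have hA := AA_sq g p
  rw [normSq_eq] at hA
  rw [normSq_eq] at hk1
  have hid : (AA g p + p.2.1.re) * (AA g p + q.2.1.re) = Q ^ 2 + ee g p ^ 2 * k.im ^ 2 := by
    have h1 : q.2.1.re = (k.re ^ 2 - k.im ^ 2) * p.2.1.re - 2 * k.re * k.im * p.2.1.im := by
      rw [hqb, ← hk, sq, mul_re, mul_re, mul_im]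
      ring
    rw [h1, hQ]
    linear_combination (AA g p + p.2.1.re) * (-AA g p) * hk1 + k.im ^ 2 * hA
  obtain ⟨t, ht⟩ := exists_time_aux (e := ee g p) (q := Q) (k := k.im) (by
    intro he hq0
    rw [he, hq0] at hid
    have := mul_pos hp hq
    rw [hid] at this
    simp at this)
  refine ⟨t, ?_⟩
  have hreal : nu g t p * conj k = (((nu g t p * conj k).re : ℝ) : ℂ) := by
    apply Complex.ext
    · simp
    · rw [ofReal_im, mul_im, conj_re, conj_im]
      simp only [nu, add_re, ofReal_re, mul_re, I_re, mul_zero, ofReal_im, I_im, mul_one, sub_self,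
        add_zero, add_im, mul_im, zero_add]
      unfold nr ni
      rw [hQ] at ht
      linear_combination ht
  set r := (nu g t p * conj k).re with hr
  have hnu : nu g t p = (r : ℂ) * k := by
    rw [← hreal]
    linear_combination (-nu g t p) * hk2
  have hr0 : (r : ℂ) ≠ 0 := by
    intro h0
    rw [h0, zero_mul] at hnu
    exact nu_ne g t p hnu
  have hmu : mu g t p = l := by
    unfold mu
    rw [hnu, map_mul, conj_ofReal, ← hk]
    have hck : conj k ≠ 0 := by rwa [Ne, map_eq_zero]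
    field_simp
    linear_combination (-1) * hk2
  refine Prod.ext ?_ (Prod.ext ?_ hy.symm)
  · change mu g t p * p.1 = q.1
    rw [hmu, hqa]
  · change mu g t p * p.2.1 = q.2.1
    rw [hmu, hqb]

/-- the quotient -/
def Qs (g : ℝ × Y → ℝ) : Set (ℂ × ℝ × Y) := {q | q.1 ≠ 0 ∨ q.2.1 < 0 ∨ 0 < g q.2}

theorem pr_mem (hg : Good g) {p : ℂ × ℂ × Y} (hp : p ∈ W g) : pr p ∈ Qs g := by
  by_cases hb : p.2.1 = 0
  · right; right
    have h := (mem_W_iff hg p).mp hp
    unfold W at hp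
    rw [mem_ofPred_eq, hb, zero_add, mem_slitPlane_iff] at hp
    simp only [ofReal_re, ofReal_im, ne_eq, not_true_eq_false, or_false] at hp
    unfold tau at hp
    change 0 < g (normSq p.1 - normSq p.2.1, p.2.2)
    rw [hb, normSq_zero, sub_zero]
    exact hp
  · by_cases ha : p.1 = 0
    · right; left
      change normSq p.1 - normSq p.2.1 < 0
      rw [ha, normSq_zero, zero_sub, neg_lt_zero, normSq_pos]
      exact hb
    · left
      change p.1 * conj p.2.1 ≠ 0
      exact mul_ne_zero ha (by rwa [Ne, map_eq_zero])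

theorem exists_pre (hg : Good g) {q : ℂ × ℝ × Y} (hq : q ∈ Qs g) : ∃ p ∈ W g, pr p = q := by
  obtain ⟨v, s, y⟩ := q
  set r := Real.sqrt (s ^ 2 + 4 * normSq v) with hr
  have hr2 : r ^ 2 = s ^ 2 + 4 * normSq v := Real.sq_sqrt (by
    have := normSq_nonneg v; positivity)
  have hr0 : 0 ≤ r := Real.sqrt_nonneg _
  have hv0 := normSq_nonneg v
  have hrs : |s| ≤ r := by
    rw [← Real.sqrt_sq_eq_abs]
    exact Real.sqrt_le_sqrt (by linarith)
  have hrs1 : s ≤ r := (le_abs_self s).trans hrs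
  set b := Real.sqrt ((r - s) / 2) with hb
  have hb2 : b ^ 2 = (r - s) / 2 := Real.sq_sqrt (by linarith)
  have hb0 : 0 ≤ b := Real.sqrt_nonneg _
  by_cases hbz : b = 0
  · -- then `v = 0` and `s ≥ 0`
    have h1 : r = s := by
      rw [hbz] at hb2; norm_num at hb2; linarith
    have h2 : normSq v = 0 := by rw [h1] at hr2; linarith
    have h3 : v = 0 := normSq_eq_zero.mp h2
    have h4 : 0 ≤ s := h1 ▸ hr0
    have h5 : 0 < g (s, y) := by
      rcases hq with h | h | h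
      · exact absurd h3 h
      · exact absurd h (not_lt.mpr h4)
      · exact h
    refine ⟨((Real.sqrt s : ℝ), 0, y), ?_, ?_⟩
    · unfold W tau
      rw [mem_ofPred_eq]
      simp only [normSq_ofReal, Real.mul_self_sqrt h4, zero_add]
      rw [mem_slitPlane_iff]
      left
      simpa using h5
    · unfold pr
      simp only [map_zero, mul_zero, normSq_ofReal, Real.mul_self_sqrt h4, sub_zero]
      rw [h3]
  · have hbp : 0 < b := lt_of_le_of_ne hb0 (Ne.symm hbz)
    have hbc : (b : ℂ) ≠ 0 := by exact_mod_cast hbz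
    refine ⟨(v / (b : ℂ), (b : ℂ), y), ?_, ?_⟩
    · unfold W
      rw [mem_ofPred_eq, mem_slitPlane_iff]
      left
      simp only [add_re, ofReal_re]
      have : 0 ≤ tau g (v / (b : ℂ), (b : ℂ), y) := hg.nonneg _
      linarith
    · unfold pr
      refine Prod.ext ?_ (Prod.ext ?_ rfl)
      · change v / (b : ℂ) * conj (b : ℂ) = v
        rw [conj_ofReal]
        field_simp
      · change normSq (v / (b : ℂ)) - normSq (b : ℂ) = s
        rw [normSq_div, normSq_ofReal]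
        have h6 : b * b = (r - s) / 2 := by rw [← sq]; exact hb2
        have h7 : b * b ≠ 0 := mul_ne_zero hbz hbz
        have h8 : normSq v = (b * b) * ((r + s) / 2) := by rw [h6]; nlinarith
        rw [h8]
        field_simp
        linear_combination (-2) * hb2

theorem image_pr (hg : Good g) : pr '' (W g) = Qs g := by
  ext q
  constructor
  · rintro ⟨p, hp, rfl⟩
    exact pr_mem hg hp
  · intro hq
    obtain ⟨p, hp, h⟩ := exists_pre hg hq
    exact ⟨p, hp, h⟩

theorem isOpen_Qs (hg : Good g) : IsOpen (Qs g) := by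
  have h1 : IsOpen {q : ℂ × ℝ × Y | q.1 ≠ 0} := isOpen_ne.preimage continuous_fst
  have h2 : IsOpen {q : ℂ × ℝ × Y | q.2.1 < 0} :=
    isOpen_lt (continuous_fst.comp continuous_snd) continuous_const
  have h3 : IsOpen {q : ℂ × ℝ × Y | 0 < g q.2} :=
    isOpen_lt continuous_const (hg.smooth.continuous.comp continuous_snd)
  exact h1.union (h2.union h3)

end

end Pool.Agent.Q133.FT
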